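import Pool.Agent.Lib.MP_a60258_pr.Typed

/-!
# The sixth cumulant of decoupled forms
-/

open MeasureTheory ProbabilityTheory MvPolynomial

set_option linter.unusedSectionVars false

namespace A602

/-- the sixth cumulant of a (centred) polynomial -/
noncomputable def k6 (P : R) : ℝ :=
  E (P ^ 6) - 15 * E (P ^ 2) * E (P ^ 4) - 10 * E (P ^ 3) ^ 2 + 30 * E (P ^ 2) ^ 3

section

variable {Z : Finset ℕ} {y : ℕ → R}

lemma E_form_mul_free (hy : ∀ z ∈ Z, Free Z (y z)) {q : R} (hq : Free Z q) :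
    E ((∑ z ∈ Z, X z * y z) * q) = 0 := by
  rw [E_leg_mul hy, hq.D_eq, map_zero]

lemma E_form_pow (hy : ∀ z ∈ Z, Free Z (y z)) {q : R} (hq : Free Z q) (n : ℕ) :
    E ((∑ z ∈ Z, X z * y z) ^ (n + 2) * q)
      = (n + 1) * E ((∑ z ∈ Z, X z * y z) ^ n * ((∑ z ∈ Z, y z ^ 2) * q)) := by
  set P := ∑ z ∈ Z, X z * y z with hP
  have hD : D Z y P = ∑ z ∈ Z, y z ^ 2 := by
    rw [hP, D_leg hy]
    exact Finset.sum_congr rfl fun z _ => (pow_two _).symm
  have e1 : P ^ (n + 2) * q = P * (P ^ (n + 1) * q) := by ring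
  have e2 : D Z y (P ^ (n + 1) * q)
      = ((n : ℝ) + 1) • (P ^ n * ((∑ z ∈ Z, y z ^ 2) * q)) := by
    rw [Derivation.leibniz, hq.D_eq, Derivation.leibniz_pow, hD]
    simp only [smul_eq_mul, nsmul_eq_mul, mul_zero, zero_add, Nat.add_sub_cancel]
    rw [Algebra.smul_def, map_add, map_natCast, map_one]
    push_cast
    ring
  rw [e1, hP, E_leg_mul hy, ← hP, e2, map_smul, smul_eq_mul]

lemma free_sq (hy : ∀ z ∈ Z, Free Z (y z)) : Free Z (∑ z ∈ Z, y z ^ 2) :=
  Free.sum _ fun z hz => by rw [pow_two]; exact (hy z hz).mul (hy z hz)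

lemma free_one : Free Z (1 : R) := fun i _ => by simp

lemma E_form_two (hy : ∀ z ∈ Z, Free Z (y z)) :
    E ((∑ z ∈ Z, X z * y z) ^ 2) = E (∑ z ∈ Z, y z ^ 2) := by
  have h := E_form_pow hy free_one 0
  simpa using h

lemma E_form_three (hy : ∀ z ∈ Z, Free Z (y z)) : E ((∑ z ∈ Z, X z * y z) ^ 3) = 0 := by
  have h := E_form_pow hy free_one 1
  rw [mul_one, mul_one, pow_one, E_form_mul_free hy (free_sq hy), mul_zero] at h
  exact h

lemma E_form_four (hy : ∀ z ∈ Z, Free Z (y z)) :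
    E ((∑ z ∈ Z, X z * y z) ^ 4) = 3 * E ((∑ z ∈ Z, y z ^ 2) ^ 2) := by
  have h := E_form_pow hy free_one 2
  have h2 := E_form_pow hy (free_sq hy) 0
  rw [mul_one, mul_one, h2] at h
  rw [h]
  push_cast
  rw [pow_zero, one_mul, ← pow_two]
  ring

lemma E_form_six (hy : ∀ z ∈ Z, Free Z (y z)) :
    E ((∑ z ∈ Z, X z * y z) ^ 6) = 15 * E ((∑ z ∈ Z, y z ^ 2) ^ 3) := by
  have h := E_form_pow hy free_one 4
  have h2 := E_form_pow hy (free_sq hy) 2
  have h3 := E_form_pow hy ((free_sq hy).mul (free_sq hy)) 0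
  rw [mul_one, mul_one, h2, h3] at h
  rw [h]
  push_cast
  have e : (∑ z ∈ Z, X z * y z) ^ 0 * ((∑ z ∈ Z, y z ^ 2) * ((∑ z ∈ Z, y z ^ 2)
      * (∑ z ∈ Z, y z ^ 2))) = (∑ z ∈ Z, y z ^ 2) ^ 3 := by ring
  rw [e]
  ring

lemma k6_form (hy : ∀ z ∈ Z, Free Z (y z)) :
    k6 (∑ z ∈ Z, X z * y z) = 15 * k3 (∑ z ∈ Z, y z ^ 2) := by
  unfold k6 k3
  rw [E_form_two hy, E_form_three hy, E_form_four hy, E_form_six hy]
  ring

end

/-- **The sixth cumulant of a decoupled form.** -/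
theorem k6_ge {Z S0 : Finset ℕ} {L : List (Finset ℕ)}
    (hd : (Z :: (L ++ [S0])).Pairwise Disjoint) {P : R} (hP : Typed (Z :: (L ++ [S0])) P)
    {i : ℕ} (hi : i ∈ S0) : 120 * E (pderiv i P ^ 2) ^ 3 ≤ k6 P := by
  obtain ⟨y, hy, rfl⟩ := hP
  rw [List.pairwise_cons] at hd
  have hfree : ∀ z ∈ Z, Free Z (y z) := fun z _ => (hy z).free hd.1
  have h1 := k3_ge L S0 hd.2 Z (fun z : Z => y z) (fun z => hy z) i hi
  have e1 : ∑ z : Z, y z ^ 2 = ∑ z ∈ Z, y z ^ 2 := Finset.sum_coe_sort Z (fun z => y z ^ 2)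
  have e2 : infl i (fun z : Z => y z) = E (pderiv i (∑ z ∈ Z, X z * y z) ^ 2) := by
    unfold infl
    rw [Finset.sum_coe_sort Z (fun z => E (pderiv i (y z) ^ 2))]
    have e3 : pderiv i (∑ z ∈ Z, X z * y z) = ∑ z ∈ Z, X z * pderiv i (y z) := by
      rw [map_sum]
      refine Finset.sum_congr rfl fun j hj => ?_
      have h2 : j ≠ i := fun h => Finset.disjoint_left.mp (hd.1 S0 (by simp)) hj (h ▸ hi)
      rw [Derivation.leibniz, pderiv_X_of_ne h2]
      simp
    have hf2 : ∀ j ∈ Z, Free Z (pderiv i (y j)) := fun j hj => pderiv_free (hfree j hj)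
    rw [e3, pow_two, E_leg_mul hf2, D_leg hf2, map_sum]
    exact Finset.sum_congr rfl fun j _ => by rw [pow_two]
  rw [e1, e2] at h1
  rw [k6_form hfree]
  linarith

/-- **Hypercontractivity of decoupled forms.** -/
theorem six_le {L : List (Finset ℕ)} (hd : L.Pairwise Disjoint) {P : R} (hP : Typed L P) :
    E (P ^ 6) ≤ 15 ^ L.length * E (P ^ 2) ^ 3 := by
  match L, hP, hd with
  | [], ⟨c, hc⟩, _ =>
    have h1 : ∀ n : ℕ, E (P ^ n) = c ^ n := fun n => by rw [hc, ← C_pow, E_C]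
    rw [h1, h1]
    simp only [List.length_nil, pow_zero, one_mul]
    exact le_of_eq (by ring)
  | Z :: L, ⟨y, hy, h⟩, hd =>
    rw [List.pairwise_cons] at hd
    have hfree : ∀ z ∈ Z, Free Z (y z) := fun z _ => (hy z).free hd.1
    have h1 := cube_le L hd.2 Z (fun z : Z => y z) (fun z => hy z)
    have e1 : ∑ z : Z, y z ^ 2 = ∑ z ∈ Z, y z ^ 2 := Finset.sum_coe_sort Z (fun z => y z ^ 2)
    rw [e1] at h1
    rw [h, E_form_six hfree, E_form_two hfree, List.length_cons]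
    calc 15 * E ((∑ z ∈ Z, y z ^ 2) ^ 3) ≤ 15 * (15 ^ L.length * E (∑ z ∈ Z, y z ^ 2) ^ 3) := by
          linarith
      _ = _ := by ring

/-! ### Decomposition along the last leg -/

lemma Typed.euler : ∀ {L : List (Finset ℕ)} {P : R}, L.Pairwise Disjoint → Typed L P →
    ∀ S ∈ L, P = ∑ i ∈ S, X i * pderiv i P
  | [], _, _, _, S, hS => absurd hS (by simp)
  | S' :: L, P, hL, ⟨b, hb, h1⟩, S, hS => by
      rw [List.pairwise_cons] at hL
      have hfree : ∀ i ∈ S', Free S' (b i) := fun i _ => (hb i).free hL.1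
      rcases List.mem_cons.mp hS with rfl | hS
      · conv_lhs => rw [h1]
        exact Finset.sum_congr rfl fun i hi => by rw [h1, pderiv_leg hfree hi]
      · have hd := hL.1 S hS
        have h2 : ∀ i ∈ S, pderiv i P = ∑ k ∈ S', X k * pderiv i (b k) := by
          intro i hi
          rw [h1, map_sum]
          refine Finset.sum_congr rfl fun k hk => ?_
          have h2 : k ≠ i := fun h => Finset.disjoint_left.mp hd hk (h ▸ hi)
          rw [Derivation.leibniz, pderiv_X_of_ne h2]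
          simp
        have h3 : ∑ i ∈ S, X i * pderiv i P = ∑ k ∈ S', X k * ∑ i ∈ S, X i * pderiv i (b k) := by
          simp only [Finset.mul_sum]
          rw [Finset.sum_comm]
          refine Finset.sum_congr rfl fun i hi => ?_
          rw [h2 i hi, Finset.mul_sum]
          exact Finset.sum_congr rfl fun k _ => by ring
        rw [h3, h1]
        exact Finset.sum_congr rfl fun k _ => by rw [← (hb k).euler hL.2 S hS]

lemma E_cauchy (P Q : R) : E (P * Q) ^ 2 ≤ E (P ^ 2) * E (Q ^ 2) := by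
  have h : ∀ t : ℝ, 0 ≤ E (P ^ 2) * (t * t) + (2 * E (P * Q)) * t + E (Q ^ 2) := by
    intro t
    have h1 : 0 ≤ E ((C t * P + Q) ^ 2) := E_nonneg fun ω => by
      rw [map_pow]; exact sq_nonneg _
    have h2 : (C t * P + Q) ^ 2 = (t * t) • P ^ 2 + (2 * t) • (P * Q) + Q ^ 2 := by
      simp only [smul_eq_C_mul, map_mul, map_ofNat]
      ring
    rw [h2, map_add, map_add, map_smul, map_smul] at h1
    simp only [smul_eq_mul] at h1
    linarith
  have := discrim_le_zero h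
  unfold discrim at this
  nlinarith

/-- covariance of two forms in terms of the derivatives along a leg -/
lemma E_mul_leg {L : List (Finset ℕ)} (hd : L.Pairwise Disjoint) {P : R} (hP : Typed L P)
    {S : Finset ℕ} (hS : S ∈ L) (Q : R) :
    E (P * Q) = ∑ i ∈ S, E (pderiv i P * pderiv i Q) := by
  have h1 := hP.euler hd S hS
  have h2 : ∀ i ∈ S, Free S (pderiv i P) := fun i hi j hj => hP.aff hd S hS j hj i hi
  conv_lhs => rw [h1]
  rw [E_leg_mul h2, D_apply, map_sum]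

end A602
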