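import Mathlib

/-!
# The Gaussian expectation of polynomials in countably many variables
-/

open MeasureTheory ProbabilityTheory MvPolynomial

namespace A602

/-! ### Moments of the standard Gaussian -/

lemma integrable_pow_gauss (k : ℕ) : Integrable (fun x : ℝ => x ^ k) (gaussianReal 0 1) := by
  have h := (memLp_id_gaussianReal (μ := 0) (v := 1) (k : NNReal))
  rcases Nat.eq_zero_or_pos k with rfl | hk
  · simp
  · have h1 := h.integrable_norm_pow (p := k) hk.ne'
    have h2 : AEStronglyMeasurable (fun x : ℝ => x ^ k) (gaussianReal 0 1) := by fun_prop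
    refine (integrable_norm_iff h2).mp ?_
    simpa using h1

/-- the moments of the standard Gaussian -/
noncomputable def mo (k : ℕ) : ℝ := ∫ x, x ^ k ∂(gaussianReal 0 1)

lemma mo_zero : mo 0 = 1 := by simp [mo]

lemma integrable_pow_mul_pdf (k : ℕ) :
    Integrable (fun x : ℝ => x ^ k * gaussianPDFReal 0 1 x) := by
  have h := integrable_pow_gauss k
  rw [gaussianReal_of_var_ne_zero 0 one_ne_zero] at h
  rw [integrable_withDensity_iff (measurable_gaussianPDF 0 1)
    (Filter.Eventually.of_forall fun x => gaussianPDF_lt_top)] at h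
  refine h.congr (Filter.Eventually.of_forall fun x => ?_)
  simp [toReal_gaussianPDF]

lemma mo_eq (k : ℕ) : mo k = ∫ x, x ^ k * gaussianPDFReal 0 1 x := by
  unfold mo
  rw [integral_gaussianReal_eq_integral_smul one_ne_zero]
  refine integral_congr_ae (Filter.Eventually.of_forall fun x => ?_)
  simp [mul_comm]

lemma hasDerivAt_pdf (x : ℝ) :
    HasDerivAt (gaussianPDFReal 0 1) (-x * gaussianPDFReal 0 1 x) x := by
  unfold gaussianPDFReal
  have h1 : HasDerivAt (fun y : ℝ => -(y - 0) ^ 2 / (2 * ((1 : NNReal) : ℝ))) (-x) x := by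
    have h2 := (((hasDerivAt_id x).sub_const 0).pow 2).neg.div_const (2 * ((1 : NNReal) : ℝ))
    refine h2.congr_deriv ?_
    simp
    ring
  have h3 := (h1.exp).const_mul (√(2 * Real.pi * ((1 : NNReal) : ℝ)))⁻¹
  refine h3.congr_deriv ?_
  ring

lemma mo_succ (k : ℕ) : mo (k + 1) = k * mo (k - 1) := by
  rw [mo_eq, mo_eq]
  have h := integral_mul_deriv_eq_deriv_mul_of_integrable (u := fun x : ℝ => x ^ k)
    (v := gaussianPDFReal 0 1) (u' := fun x : ℝ => k * x ^ (k - 1))
    (v' := fun x => -x * gaussianPDFReal 0 1 x) (fun x _ => hasDerivAt_pow k x)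
    (fun x _ => hasDerivAt_pdf x) ?_ ?_ ?_
  · have h1 : ∫ x : ℝ, x ^ k * (-x * gaussianPDFReal 0 1 x)
        = -∫ x : ℝ, x ^ (k + 1) * gaussianPDFReal 0 1 x := by
      rw [← integral_neg]
      refine integral_congr_ae (Filter.Eventually.of_forall fun x => ?_)
      simp only []
      ring
    have h2 : ∫ x : ℝ, (k : ℝ) * x ^ (k - 1) * gaussianPDFReal 0 1 x
        = k * ∫ x : ℝ, x ^ (k - 1) * gaussianPDFReal 0 1 x := by
      rw [← integral_const_mul]
      refine integral_congr_ae (Filter.Eventually.of_forall fun x => ?_)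
      simp only []
      ring
    rw [h1, h2] at h
    linarith
  · refine (integrable_pow_mul_pdf (k + 1)).neg.congr (Filter.Eventually.of_forall fun x => ?_)
    simp only [Pi.neg_apply, Pi.mul_apply]
    ring
  · refine ((integrable_pow_mul_pdf (k - 1)).const_mul (k : ℝ)).congr
      (Filter.Eventually.of_forall fun x => ?_)
    simp only [Pi.mul_apply]
    ring
  · exact integrable_pow_mul_pdf k

/-! ### The product measure -/

/-- the law of a sequence of independent standard Gaussians -/
noncomputable abbrev γ : Measure (ℕ → ℝ) := Measure.infinitePi (fun _ : ℕ => gaussianReal 0 1)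

lemma integrable_prod (s : Finset ℕ) (f : ℕ → ℕ) :
    Integrable (fun ω : ℕ → ℝ => ∏ i ∈ s, ω i ^ f i) γ := by
  have h1 : Integrable (fun y : (i : s) → ℝ => ∏ i : s, y i ^ f i)
      (Measure.pi (fun i : s => gaussianReal 0 1)) :=
    Integrable.fintype_prod (f := fun (i : s) (x : ℝ) => x ^ f i) fun i => integrable_pow_gauss _
  rw [← Measure.infinitePi_map_restrict (μ := fun _ : ℕ => gaussianReal 0 1)] at h1
  have h2 := Integrable.comp_measurable (f := (s.restrict : (ℕ → ℝ) → (s → ℝ))) h1
    (Finset.measurable_restrict s)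
  refine h2.congr (Filter.Eventually.of_forall fun ω => ?_)
  simp only [Function.comp]
  exact (Finset.prod_coe_sort s (fun i => ω i ^ f i))

lemma integral_prod (s : Finset ℕ) (f : ℕ → ℕ) :
    ∫ ω : ℕ → ℝ, ∏ i ∈ s, ω i ^ f i ∂γ = ∏ i ∈ s, mo (f i) := by
  have h1 : ∫ ω : ℕ → ℝ, ∏ i ∈ s, ω i ^ f i ∂γ
      = ∫ ω : ℕ → ℝ, (fun y : (i : s) → ℝ => ∏ i : s, y i ^ f i) (s.restrict ω) ∂γ := by
    refine integral_congr_ae (Filter.Eventually.of_forall fun ω => ?_)
    exact (Finset.prod_coe_sort s (fun i => ω i ^ f i)).symm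
  have h2 := integral_restrict_infinitePi (X := fun _ : ℕ => ℝ)
    (μ := fun _ : ℕ => gaussianReal 0 1) (s := s)
    (f := fun y : (i : s) → ℝ => ∏ i : s, y i ^ f i)
    (Measurable.aestronglyMeasurable (by fun_prop))
  rw [h1]
  refine h2.trans ?_
  rw [integral_fintype_prod_eq_prod (f := fun (i : s) (x : ℝ) => x ^ f i)]
  exact (Finset.prod_coe_sort s (fun i => mo (f i)))

/-! ### Polynomials -/

lemma eval_monomial_eq (α : ℕ →₀ ℕ) (c : ℝ) (ω : ℕ → ℝ) {s : Finset ℕ} (hs : α.support ⊆ s) :
    eval ω (monomial α c) = c * ∏ i ∈ s, ω i ^ α i := by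
  rw [eval_monomial, Finsupp.prod_of_support_subset α hs _ (by simp)]

lemma integrable_eval (P : MvPolynomial ℕ ℝ) : Integrable (fun ω => eval ω P) γ := by
  induction P using MvPolynomial.induction_on' with
  | monomial α c =>
    refine ((integrable_prod α.support α).const_mul c).congr
      (Filter.Eventually.of_forall fun ω => ?_)
    exact (eval_monomial_eq α c ω subset_rfl).symm
  | add p q hp hq =>
    refine (hp.add hq).congr (Filter.Eventually.of_forall fun ω => ?_)
    simp

/-- the expectation of a polynomial -/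
noncomputable def E : MvPolynomial ℕ ℝ →ₗ[ℝ] ℝ where
  toFun P := ∫ ω, eval ω P ∂γ
  map_add' P Q := by
    simp only [map_add]
    exact integral_add (integrable_eval P) (integrable_eval Q)
  map_smul' c P := by
    simp only [smul_eval, RingHom.id_apply, smul_eq_mul]
    exact integral_const_mul _ _

lemma E_def (P : MvPolynomial ℕ ℝ) : E P = ∫ ω, eval ω P ∂γ := rfl

lemma E_nonneg {P : MvPolynomial ℕ ℝ} (h : ∀ ω, 0 ≤ eval ω P) : 0 ≤ E P :=
  integral_nonneg h

lemma E_mono {P Q : MvPolynomial ℕ ℝ} (h : ∀ ω, eval ω P ≤ eval ω Q) : E P ≤ E Q :=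
  integral_mono (integrable_eval P) (integrable_eval Q) h

lemma E_monomial (α : ℕ →₀ ℕ) (c : ℝ) {s : Finset ℕ} (hs : α.support ⊆ s) :
    E (monomial α c) = c * ∏ i ∈ s, mo (α i) := by
  rw [E_def, ← integral_prod, ← integral_const_mul]
  refine integral_congr_ae (Filter.Eventually.of_forall fun ω => ?_)
  exact eval_monomial_eq α c ω hs

lemma E_C (c : ℝ) : E (C c) = c := by
  rw [E_def]
  simp

/-- Gaussian integration by parts -/
lemma E_X_mul (i : ℕ) (P : MvPolynomial ℕ ℝ) : E (X i * P) = E (pderiv i P) := by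
  induction P using MvPolynomial.induction_on' with
  | monomial α c =>
    set s := insert i α.support with hs
    have hi : i ∈ s := Finset.mem_insert_self _ _
    have h1 : X i * monomial α c = monomial (α + Finsupp.single i 1) c := by
      rw [X, monomial_mul, one_mul, add_comm]
    rw [h1, pderiv_monomial]
    rw [E_monomial _ _ (s := s), E_monomial _ _ (s := s)]
    · rw [← Finset.mul_prod_erase s (fun j => mo ((α + Finsupp.single i 1 : ℕ →₀ ℕ) j)) hi,
        ← Finset.mul_prod_erase s (fun j => mo ((α - Finsupp.single i 1 : ℕ →₀ ℕ) j)) hi]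
      have h2 : ∏ j ∈ s.erase i, mo ((α + Finsupp.single i 1 : ℕ →₀ ℕ) j)
          = ∏ j ∈ s.erase i, mo ((α - Finsupp.single i 1 : ℕ →₀ ℕ) j) := by
        refine Finset.prod_congr rfl fun j hj => ?_
        have hj' : i ≠ j := (Finset.ne_of_mem_erase hj).symm
        simp [Finsupp.single_apply, hj']
      rw [h2]
      have h3 : mo ((α + Finsupp.single i 1 : ℕ →₀ ℕ) i)
          = α i * mo ((α - Finsupp.single i 1 : ℕ →₀ ℕ) i) := by
        simp [mo_succ]
      rw [h3]
      ring
    · refine (Finsupp.support_tsub).trans ?_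
      exact Finset.subset_insert _ _
    · refine (Finsupp.support_add).trans ?_
      refine Finset.union_subset (Finset.subset_insert _ _) ?_
      refine (Finsupp.support_single_subset).trans ?_
      simp [hs]
  | add p q hp hq => rw [mul_add, map_add, map_add, map_add, hp, hq]

end A602
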