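import Pool.Agent.Lib.MP_a60258_pr.Gauss

/-!
# Polynomials that are linear in each of several groups of Gaussian variables
-/

open MeasureTheory ProbabilityTheory MvPolynomial

set_option linter.unusedSectionVars false

namespace A602

abbrev R := MvPolynomial ℕ ℝ

/-! ### Directional derivatives -/

/-- the derivation `∑_{i ∈ S} b_i ∂_i` -/
noncomputable def D (S : Finset ℕ) (b : ℕ → R) : Derivation ℝ R R := ∑ i ∈ S, b i • pderiv i

lemma D_apply (S : Finset ℕ) (b : ℕ → R) (G : R) : D S b G = ∑ i ∈ S, b i * pderiv i G := by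
  classical
  unfold D
  induction S using Finset.induction_on with
  | empty => simp
  | insert a s ha ih =>
    rw [Finset.sum_insert ha, Finset.sum_insert ha, Derivation.add_apply, ih]
    simp

/-- `P` does not involve the variables of the leg `S` -/
def Free (S : Finset ℕ) (P : R) : Prop := ∀ i ∈ S, pderiv i P = 0

lemma Free.D_eq {S : Finset ℕ} {b : ℕ → R} {P : R} (h : Free S P) : D S b P = 0 := by
  rw [D_apply]
  exact Finset.sum_eq_zero fun i hi => by rw [h i hi, mul_zero]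

lemma Free.zero (S : Finset ℕ) : Free S 0 := fun _ _ => map_zero _

lemma Free.C (S : Finset ℕ) (c : ℝ) : Free S (MvPolynomial.C c) := fun _ _ => pderiv_C

lemma Free.add {S : Finset ℕ} {P Q : R} (hP : Free S P) (hQ : Free S Q) : Free S (P + Q) :=
  fun i hi => by rw [map_add, hP i hi, hQ i hi, add_zero]

lemma Free.mul {S : Finset ℕ} {P Q : R} (hP : Free S P) (hQ : Free S Q) : Free S (P * Q) :=
  fun i hi => by rw [Derivation.leibniz, hP i hi, hQ i hi, smul_zero, smul_zero, add_zero]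

lemma Free.sum {S : Finset ℕ} {κ : Type*} (s : Finset κ) {P : κ → R} (hP : ∀ k ∈ s, Free S (P k)) :
    Free S (∑ k ∈ s, P k) := fun i hi => by
  rw [map_sum]
  exact Finset.sum_eq_zero fun k hk => hP k hk i hi

lemma pderiv_leg {S : Finset ℕ} {b : ℕ → R} (hb : ∀ i ∈ S, Free S (b i)) {j : ℕ} (hj : j ∈ S) :
    pderiv j (∑ i ∈ S, X i * b i) = b j := by
  rw [map_sum, Finset.sum_eq_single j]
  · rw [Derivation.leibniz, hb j hj j hj, pderiv_X_self]
    simp
  · intro i hi hij
    rw [Derivation.leibniz, hb i hi j hj, pderiv_X_of_ne hij]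
    simp
  · intro h; exact absurd hj h

lemma D_leg {S : Finset ℕ} {b c : ℕ → R} (hc : ∀ i ∈ S, Free S (c i)) :
    D S b (∑ i ∈ S, X i * c i) = ∑ i ∈ S, b i * c i := by
  rw [D_apply]
  exact Finset.sum_congr rfl fun i hi => by rw [pderiv_leg hc hi]

/-- integration by parts in a leg -/
lemma E_leg_mul {S : Finset ℕ} {b : ℕ → R} (hb : ∀ i ∈ S, Free S (b i)) (G : R) :
    E ((∑ i ∈ S, X i * b i) * G) = E (D S b G) := by
  rw [D_apply, Finset.sum_mul, map_sum, map_sum]
  refine Finset.sum_congr rfl fun i hi => ?_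
  rw [mul_assoc, E_X_mul, Derivation.leibniz, hb i hi i hi]
  simp

/-! ### Families of forms that are linear in a leg -/

section Family

variable {ι : Type} [Fintype ι] {S : Finset ℕ} {b : ι → ℕ → R}

/-- the forms -/
noncomputable def Yf (S : Finset ℕ) (b : ι → ℕ → R) (l : ι) : R := ∑ i ∈ S, X i * b l i

/-- the Gram matrix -/
noncomputable def Kf (S : Finset ℕ) (b : ι → ℕ → R) (l m : ι) : R := ∑ i ∈ S, b l i * b m i

/-- the sum of squares -/
noncomputable def Vf (S : Finset ℕ) (b : ι → ℕ → R) : R := ∑ l, Yf S b l ^ 2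

/-- the trace of the Gram matrix -/
noncomputable def Tf (S : Finset ℕ) (b : ι → ℕ → R) : R := ∑ l, Kf S b l l

/-- the trace of the square of the Gram matrix -/
noncomputable def Hf (S : Finset ℕ) (b : ι → ℕ → R) : R := ∑ l, ∑ m, Kf S b l m ^ 2

/-- the trace of the cube of the Gram matrix -/
noncomputable def Cf (S : Finset ℕ) (b : ι → ℕ → R) : R :=
  ∑ l, ∑ m, ∑ n, Kf S b l m * (Kf S b l n * Kf S b m n)

lemma Kf_comm (l m : ι) : Kf S b l m = Kf S b m l :=
  Finset.sum_congr rfl fun _ _ => mul_comm _ _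

lemma free_Kf (hb : ∀ l, ∀ i ∈ S, Free S (b l i)) (l m : ι) : Free S (Kf S b l m) :=
  Free.sum _ fun i hi => (hb l i hi).mul (hb m i hi)

lemma free_Tf (hb : ∀ l, ∀ i ∈ S, Free S (b l i)) : Free S (Tf S b) :=
  Free.sum _ fun l _ => free_Kf hb l l

lemma D_Yf (hb : ∀ l, ∀ i ∈ S, Free S (b l i)) (l m : ι) : D S (b l) (Yf S b m) = Kf S b l m :=
  D_leg (hb m)

lemma D_Vf (hb : ∀ l, ∀ i ∈ S, Free S (b l i)) (l : ι) :
    D S (b l) (Vf S b) = 2 * ∑ m, Yf S b m * Kf S b l m := by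
  unfold Vf
  rw [map_sum, Finset.mul_sum]
  refine Finset.sum_congr rfl fun m _ => ?_
  rw [pow_two, Derivation.leibniz, D_Yf hb]
  simp only [smul_eq_mul]
  ring

lemma sum_YY (G : R) : ∑ l, Yf S b l * (Yf S b l * G) = Vf S b * G := by
  unfold Vf
  rw [Finset.sum_mul]
  exact Finset.sum_congr rfl fun l _ => by ring

lemma sum_Kll (G : R) : ∑ l, Kf S b l l * G = Tf S b * G := by
  unfold Tf
  rw [Finset.sum_mul]

lemma sum_Klm (G : R) : ∑ l, ∑ m, Kf S b l m ^ 2 * G = Hf S b * G := by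
  unfold Hf
  rw [Finset.sum_mul]
  exact Finset.sum_congr rfl fun l _ => by rw [Finset.sum_mul]

lemma E_Y_mul (hb : ∀ l, ∀ i ∈ S, Free S (b l i)) (l : ι) (G : R) :
    E (Yf S b l * G) = E (D S (b l) G) := E_leg_mul (hb l) G

/-- first moment -/
lemma E_Vf_mul (hb : ∀ l, ∀ i ∈ S, Free S (b l i)) {q : R} (hq : Free S q) :
    E (Vf S b * q) = E (Tf S b * q) := by
  rw [← sum_YY, ← sum_Kll, map_sum, map_sum]
  refine Finset.sum_congr rfl fun l _ => ?_
  rw [E_Y_mul hb, Derivation.leibniz, hq.D_eq, D_Yf hb]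
  simp [mul_comm]

/-- product of two forms -/
lemma E_YY (hb : ∀ l, ∀ i ∈ S, Free S (b l i)) (l m : ι) (G : R) :
    E (Yf S b l * (Yf S b m * G)) = E (Kf S b l m * G) + E (Yf S b m * D S (b l) G) := by
  rw [E_Y_mul hb, Derivation.leibniz, D_Yf hb, map_add]
  simp only [smul_eq_mul]
  rw [add_comm, mul_comm G]

/-- second moment -/
lemma E_Vf_sq_mul (hb : ∀ l, ∀ i ∈ S, Free S (b l i)) {q : R} (hq : Free S q) :
    E (Vf S b ^ 2 * q) = E (Tf S b ^ 2 * q) + 2 * E (Hf S b * q) := by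
  have e0 : Vf S b ^ 2 * q = ∑ l, Yf S b l * (Yf S b l * (Vf S b * q)) := by
    rw [sum_YY]; ring
  rw [e0, map_sum]
  have e1 : ∀ l, E (Yf S b l * (Yf S b l * (Vf S b * q)))
      = E (Kf S b l l * (Vf S b * q)) + 2 * ∑ m, E (Kf S b l m ^ 2 * q) := by
    intro l
    rw [E_YY hb]
    congr 1
    rw [Derivation.leibniz, hq.D_eq, smul_zero, zero_add, smul_eq_mul, D_Vf hb]
    have e2 : Yf S b l * (q * (2 * ∑ m, Yf S b m * Kf S b l m))
        = (2 : ℝ) • ∑ m, Yf S b l * (Yf S b m * (Kf S b l m * q)) := by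
      rw [Algebra.smul_def, Finset.mul_sum, Finset.mul_sum, Finset.mul_sum, Finset.mul_sum]
      refine Finset.sum_congr rfl fun m _ => ?_
      simp only [map_ofNat]
      ring
    rw [e2, map_smul, smul_eq_mul, map_sum]
    congr 1
    refine Finset.sum_congr rfl fun m _ => ?_
    rw [E_YY hb, ((free_Kf hb l m).mul hq).D_eq, mul_zero, map_zero, add_zero]
    congr 1; ring
  simp only [e1]
  rw [Finset.sum_add_distrib, ← Finset.mul_sum]
  congr 1
  · rw [← map_sum, sum_Kll]
    have e3 : Tf S b * (Vf S b * q) = Vf S b * (Tf S b * q) := by ring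
    rw [e3, E_Vf_mul hb ((free_Tf hb).mul hq)]
    congr 1; ring
  · rw [← sum_Klm, map_sum]
    congr 1
    exact Finset.sum_congr rfl fun l _ => by rw [map_sum]

/-- third moment -/
lemma E_Vf_cube (hb : ∀ l, ∀ i ∈ S, Free S (b l i)) :
    E (Vf S b ^ 3) = E (Tf S b ^ 3) + 6 * E (Tf S b * Hf S b) + 8 * E (Cf S b) := by
  have e0 : Vf S b ^ 3 = ∑ l, Yf S b l * (Yf S b l * (Vf S b ^ 2)) := by
    rw [sum_YY]; ring
  rw [e0, map_sum]
  have e1 : ∀ l, E (Yf S b l * (Yf S b l * (Vf S b ^ 2)))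
      = E (Kf S b l l * (Vf S b ^ 2)) + 4 * (∑ m, E (Kf S b l m ^ 2 * Tf S b)
        + 2 * ∑ m, ∑ n, E (Kf S b l m * (Kf S b l n * Kf S b m n))) := by
    intro l
    rw [E_YY hb]
    congr 1
    have e2 : Yf S b l * D S (b l) (Vf S b ^ 2)
        = (4 : ℝ) • ∑ m, Yf S b l * (Yf S b m * (Kf S b l m * Vf S b)) := by
      rw [pow_two, Derivation.leibniz, D_Vf hb]
      simp only [smul_eq_mul]
      rw [Algebra.smul_def, map_ofNat]
      have : ∑ m, Yf S b l * (Yf S b m * (Kf S b l m * Vf S b))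
          = Yf S b l * Vf S b * ∑ m, Yf S b m * Kf S b l m := by
        rw [Finset.mul_sum]
        exact Finset.sum_congr rfl fun m _ => by ring
      rw [this]
      ring
    rw [e2, map_smul, smul_eq_mul, map_sum]
    congr 1
    rw [Finset.mul_sum, ← Finset.sum_add_distrib]
    refine Finset.sum_congr rfl fun m _ => ?_
    rw [E_YY hb, Derivation.leibniz, (free_Kf hb l m).D_eq, smul_zero, add_zero, smul_eq_mul,
      D_Vf hb]
    congr 1
    · have e3 : Kf S b l m * (Kf S b l m * Vf S b) = Vf S b * Kf S b l m ^ 2 := by ring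
      rw [e3, E_Vf_mul hb (by rw [pow_two]; exact (free_Kf hb l m).mul (free_Kf hb l m)), mul_comm]
    · have e3 : Yf S b m * (Kf S b l m * (2 * ∑ n, Yf S b n * Kf S b l n))
          = (2 : ℝ) • ∑ n, Yf S b m * (Yf S b n * (Kf S b l m * Kf S b l n)) := by
        rw [Algebra.smul_def, Finset.mul_sum, Finset.mul_sum, Finset.mul_sum, Finset.mul_sum]
        refine Finset.sum_congr rfl fun n _ => ?_
        simp only [map_ofNat]
        ring
      rw [e3, map_smul, smul_eq_mul, map_sum]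
      congr 1
      refine Finset.sum_congr rfl fun n _ => ?_
      rw [E_YY hb, ((free_Kf hb l m).mul (free_Kf hb l n)).D_eq, mul_zero, map_zero, add_zero]
      congr 1; ring
  simp only [e1]
  rw [Finset.sum_add_distrib, ← map_sum, sum_Kll, ← Finset.mul_sum,
    Finset.sum_add_distrib, ← Finset.mul_sum]
  have e4 : Tf S b * Vf S b ^ 2 = Vf S b ^ 2 * Tf S b := by ring
  have e5 : ∑ l, ∑ m, E (Kf S b l m ^ 2 * Tf S b) = E (Hf S b * Tf S b) := by
    rw [← sum_Klm, map_sum]
    exact Finset.sum_congr rfl fun l _ => by rw [map_sum]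
  have e6 : ∑ l, ∑ m, ∑ n, E (Kf S b l m * (Kf S b l n * Kf S b m n)) = E (Cf S b) := by
    unfold Cf
    rw [map_sum]
    refine Finset.sum_congr rfl fun l _ => ?_
    rw [map_sum]
    refine Finset.sum_congr rfl fun m _ => ?_
    rw [map_sum]
  rw [e4, e5, e6, E_Vf_sq_mul hb (free_Tf hb)]
  have e7 : Tf S b ^ 2 * Tf S b = Tf S b ^ 3 := by ring
  rw [e7, mul_comm (Tf S b) (Hf S b)]
  ring

end Family

end A602
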