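import Mathlib

/-!
# Auxiliary facts on `L^q` convergence and moments
-/

open MeasureTheory ProbabilityTheory Filter Topology

namespace A602

variable {Ω : Type*} [MeasurableSpace Ω] {μ : Measure Ω}

lemma norm_rpow_nat {q : ℕ} (hq : Even q) (x : ℝ) : ‖x‖ ^ ((q : ENNReal).toReal) = x ^ q := by
  rw [ENNReal.toReal_natCast, Real.rpow_natCast, Real.norm_eq_abs, hq.pow_abs]

lemma memLp_of_integrable_pow {f : Ω → ℝ} {q : ℕ} (hq : Even q) (h0 : q ≠ 0)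
    (hf : AEStronglyMeasurable f μ) (h : Integrable (fun ω => f ω ^ q) μ) : MemLp f q μ := by
  rw [← integrable_norm_rpow_iff hf (by exact_mod_cast h0) (by simp)]
  simpa only [norm_rpow_nat hq] using h

lemma integrable_pow_of_memLp {f : Ω → ℝ} {q : ℕ} (hq : Even q) (h0 : q ≠ 0)
    (hf : MemLp f q μ) : Integrable (fun ω => f ω ^ q) μ := by
  have := (integrable_norm_rpow_iff hf.1 (by exact_mod_cast h0) (by simp)).mpr hf
  simpa only [norm_rpow_nat hq] using this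

lemma eLpNorm_nat {f : Ω → ℝ} {q : ℕ} (hq : Even q) (h0 : q ≠ 0) (hf : MemLp f q μ) :
    eLpNorm f q μ = ENNReal.ofReal ((∫ ω, f ω ^ q ∂μ) ^ ((q : ℝ)⁻¹)) := by
  rw [hf.eLpNorm_eq_integral_rpow_norm (by exact_mod_cast h0) (by simp)]
  simp only [norm_rpow_nat hq]
  rw [ENNReal.toReal_natCast]

lemma integral_pow_nonneg {f : Ω → ℝ} {q : ℕ} (hq : Even q) : 0 ≤ ∫ ω, f ω ^ q ∂μ :=
  integral_nonneg fun _ => hq.pow_nonneg _

lemma eLpNorm_lt {f : Ω → ℝ} {q : ℕ} (hq : Even q) (h0 : q ≠ 0) (hf : MemLp f q μ) {a : ℝ}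
    (ha : 0 < a) (h : ∫ ω, f ω ^ q ∂μ < a ^ q) : eLpNorm f q μ < ENNReal.ofReal a := by
  rw [eLpNorm_nat hq h0 hf, ENNReal.ofReal_lt_ofReal_iff ha]
  rw [Real.rpow_inv_lt_iff_of_pos (integral_pow_nonneg hq) ha.le (by positivity)]
  rwa [Real.rpow_natCast]

lemma integral_eq_eLpNorm {f : Ω → ℝ} {q : ℕ} (hq : Even q) (h0 : q ≠ 0) (hf : MemLp f q μ) :
    ∫ ω, f ω ^ q ∂μ = (eLpNorm f q μ).toReal ^ q := by
  rw [eLpNorm_nat hq h0 hf, ENNReal.toReal_ofReal (Real.rpow_nonneg (integral_pow_nonneg hq) _),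
    ← Real.rpow_natCast, ← Real.rpow_mul (integral_pow_nonneg hq),
    inv_mul_cancel₀ (by exact_mod_cast h0), Real.rpow_one]

lemma tendsto_moment {q : ℕ} (hq : Even q) (h0 : 1 ≤ q) {u : ℕ → Ω → ℝ} {Y : Ω → ℝ}
    (hu : ∀ n, MemLp (u n) q μ) (hY : MemLp Y q μ)
    (h : Tendsto (fun n => eLpNorm (u n - Y) q μ) atTop (𝓝 0)) :
    Tendsto (fun n => ∫ ω, u n ω ^ q ∂μ) atTop (𝓝 (∫ ω, Y ω ^ q ∂μ)) := by
  have : Fact (1 ≤ (q : ENNReal)) := ⟨by exact_mod_cast h0⟩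
  have h1 := (Lp.tendsto_Lp_iff_tendsto_eLpNorm'' u hu Y hY).mpr h
  have h2 := h1.norm
  simp only [Lp.norm_toLp] at h2
  have h3 := h2.pow q
  have hq0 : q ≠ 0 := by omega
  rw [← integral_eq_eLpNorm hq hq0 hY] at h3
  refine h3.congr fun n => ?_
  rw [← integral_eq_eLpNorm hq hq0 (hu n)]

/-- `L²`-approximability of `X` by `u n` together with an `L⁶`-Cauchy property: `X` is in `L⁶` and
the convergence holds in `L⁶`. -/
lemma exists_L6 [IsProbabilityMeasure μ] {X : Ω → ℝ} (hX : MemLp X 2 μ) {u : ℕ → Ω → ℝ}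
    (hu : ∀ n, MemLp (u n) 6 μ) (h2 : Tendsto (fun n => ∫ ω, (X ω - u n ω) ^ 2 ∂μ) atTop (𝓝 0))
    (h6 : ∀ N n m : ℕ, N ≤ n → N ≤ m → ∫ ω, (u n ω - u m ω) ^ 6 ∂μ < ((1 / 2 : ℝ) ^ N) ^ 6) :
    MemLp X 6 μ ∧ Tendsto (fun n => eLpNorm (u n - X) 6 μ) atTop (𝓝 0) := by
  have hev : Even 6 := by decide
  have c6 : ((6 : ℕ) : ENNReal) = 6 := by norm_num
  have c2 : ((2 : ℕ) : ENNReal) = 2 := by norm_num
  have hB : ∑' N : ℕ, ENNReal.ofReal ((1 / 2 : ℝ) ^ N) ≠ ⊤ := by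
    rw [← ENNReal.ofReal_tsum_of_nonneg (fun n => by positivity)
      (summable_geometric_of_lt_one (by norm_num) (by norm_num))]
    exact ENNReal.ofReal_ne_top
  have hC : ∀ N n m : ℕ, N ≤ n → N ≤ m →
      eLpNorm (u n - u m) 6 μ < ENNReal.ofReal ((1 / 2 : ℝ) ^ N) := by
    intro N n m hn hm
    have hmem : MemLp (u n - u m) ((6 : ℕ) : ENNReal) μ := by rw [c6]; exact (hu n).sub (hu m)
    have h3 := eLpNorm_lt hev (by norm_num) hmem (a := (1 / 2 : ℝ) ^ N) (by positivity)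
      (by simpa using h6 N n m hn hm)
    rwa [c6] at h3
  obtain ⟨Y, hY, hlim⟩ := Lp.cauchy_complete_eLpNorm (p := 6) (μ := μ) (by norm_num) (f := u) hu
    hB hC
  · -- X = Y a.e.
    have hle : ∀ n, eLpNorm (X - Y) 2 μ ≤ eLpNorm (X - u n) 2 μ + eLpNorm (u n - Y) 6 μ := by
      intro n
      have h1 : X - Y = (X - u n) + (u n - Y) := by ring
      rw [h1]
      refine (eLpNorm_add_le (hX.1.sub (hu n).1) ((hu n).1.sub hY.1) (by norm_num)).trans ?_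
      gcongr
      exact eLpNorm_le_eLpNorm_of_exponent_le (by norm_num) ((hu n).1.sub hY.1)
    have ht : Tendsto (fun n => eLpNorm (X - u n) 2 μ) atTop (𝓝 0) := by
      have hm : ∀ n, MemLp (X - u n) 2 μ := fun n =>
        hX.sub ((hu n).mono_exponent (by norm_num))
      have e : ∀ n, eLpNorm (X - u n) 2 μ
          = ENNReal.ofReal ((∫ ω, (X ω - u n ω) ^ 2 ∂μ) ^ ((2 : ℝ)⁻¹)) := by
        intro n
        have h3 := eLpNorm_nat (q := 2) (by decide) (by norm_num) (by rw [c2]; exact hm n)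
        rw [c2] at h3
        simpa using h3
      simp only [e]
      have h4 := (h2.rpow_const (p := (2 : ℝ)⁻¹) (Or.inr (by norm_num)))
      have h5 := ENNReal.tendsto_ofReal h4
      simpa using h5
    have hz : eLpNorm (X - Y) 2 μ = 0 := by
      have h3 := ge_of_tendsto' (ht.add hlim) hle
      simpa using h3
    have hae : X =ᵐ[μ] Y := by
      rw [eLpNorm_eq_zero_iff (hX.1.sub hY.1) (by norm_num)] at hz
      filter_upwards [hz] with ω hω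
      simpa [sub_eq_zero] using hω
    refine ⟨hY.ae_eq hae.symm, ?_⟩
    refine hlim.congr fun n => ?_
    refine eLpNorm_congr_ae ?_
    filter_upwards [hae] with ω hω
    simp [hω]

/-- a pointwise inequality for cubes -/
lemma abs_cube_sub_le (x y : ℝ) {ε : ℝ} (hε : 0 < ε) :
    |x ^ 3 - y ^ 3| ≤ ε⁻¹ * (x - y) ^ 2 + 3 * ε * (x ^ 4 + y ^ 4) := by
  have h1 : x ^ 3 - y ^ 3 = (x - y) * (x ^ 2 + x * y + y ^ 2) := by ring
  have h2 : |(x - y) * (x ^ 2 + x * y + y ^ 2)|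
      ≤ (ε⁻¹ * (x - y) ^ 2 + ε * (x ^ 2 + x * y + y ^ 2) ^ 2) / 2 := by
    rw [abs_le]
    have h3 : 0 ≤ (ε⁻¹ * (x - y) + (x ^ 2 + x * y + y ^ 2)) ^ 2 * ε := by positivity
    have h4 : 0 ≤ (ε⁻¹ * (x - y) - (x ^ 2 + x * y + y ^ 2)) ^ 2 * ε := by positivity
    have h5 : ε * ε⁻¹ = 1 := mul_inv_cancel₀ hε.ne'
    constructor
    · have e : (ε⁻¹ * (x - y) + (x ^ 2 + x * y + y ^ 2)) ^ 2 * ε
          = (ε * ε⁻¹) * (ε⁻¹ * (x - y) ^ 2) + 2 * (ε * ε⁻¹) * ((x - y) * (x ^ 2 + x * y + y ^ 2))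
            + ε * (x ^ 2 + x * y + y ^ 2) ^ 2 := by ring
      rw [e, h5] at h3
      linarith
    · have e : (ε⁻¹ * (x - y) - (x ^ 2 + x * y + y ^ 2)) ^ 2 * ε
          = (ε * ε⁻¹) * (ε⁻¹ * (x - y) ^ 2) - 2 * (ε * ε⁻¹) * ((x - y) * (x ^ 2 + x * y + y ^ 2))
            + ε * (x ^ 2 + x * y + y ^ 2) ^ 2 := by ring
      rw [e, h5] at h4
      linarith
  have h6 : (x ^ 2 + x * y + y ^ 2) ^ 2 ≤ 9 / 2 * (x ^ 4 + y ^ 4) := by
    nlinarith [sq_nonneg (x - y), sq_nonneg (x + y), sq_nonneg (x ^ 2 - y ^ 2),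
      mul_nonneg (sq_nonneg (x - y)) (sq_nonneg (x + y)), mul_nonneg (sq_nonneg (x - y)) (sq_nonneg x),
      mul_nonneg (sq_nonneg (x - y)) (sq_nonneg y), sq_nonneg ((x - y) ^ 2)]
  rw [h1]
  refine h2.trans ?_
  have h7 : 0 ≤ ε⁻¹ * (x - y) ^ 2 := by positivity
  have h8 := mul_le_mul_of_nonneg_left h6 hε.le
  have h9 : 0 ≤ ε * (x ^ 4 + y ^ 4) := by positivity
  nlinarith

end A602
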