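import Pool.Agent.Lib.MP_a60258_pr.Cumulant
import Pool.Agent.Lib.MP_a60258_pr.LpAux

/-!
# Positivity of the sixth cumulant on the decoupled part of a Wiener chaos
-/

open MeasureTheory ProbabilityTheory MvPolynomial Filter Topology

namespace A602

/-! ### Legs given by a colouring -/

section Legs

variable {p : ℕ} (c : ℕ → Fin p)

/-- the first variables of the colour `j` -/
def leg (N : ℕ) (j : Fin p) : Finset ℕ := (Finset.range N).filter (fun n => c n = j)

def legs (N : ℕ) : List (Finset ℕ) := List.ofFn (leg c N)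

lemma mem_leg {N : ℕ} {j : Fin p} {n : ℕ} : n ∈ leg c N j ↔ n < N ∧ c n = j := by
  simp [leg]

lemma legs_disjoint (N : ℕ) : (legs c N).Pairwise Disjoint := by
  rw [legs, List.pairwise_ofFn]
  intro i j hij
  rw [Finset.disjoint_left]
  intro n hn hn'
  rw [mem_leg] at hn hn'
  exact hij.ne (hn.2.symm.trans hn'.2)

lemma length_legs (N : ℕ) : (legs c N).length = p := by simp [legs]

end Legs

lemma typed_prod : ∀ (n : ℕ) (S : Fin n → Finset ℕ) (i : Fin n → ℕ), (∀ j, i j ∈ S j) →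
    Typed (List.ofFn S) (∏ j, X (i j))
  | 0, S, i, _ => by
      rw [List.ofFn_zero]
      exact ⟨1, by simp⟩
  | n + 1, S, i, h => by
      rw [List.ofFn_succ]
      refine ⟨fun k => if k = i 0 then ∏ j : Fin n, X (i j.succ) else 0, ?_, ?_⟩
      · intro k
        by_cases hk : k = i 0
        · simp only [hk, if_true]
          exact typed_prod n (fun j => S j.succ) (fun j => i j.succ) (fun j => h j.succ)
        · simp only [hk, if_false]
          exact Typed.zero _
      · rw [Fin.prod_univ_succ, Finset.sum_eq_single (i 0)]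
        · simp
        · intro k _ hk
          simp [hk]
        · intro h0; exact absurd (h 0) h0

section Class

variable {p : ℕ} {c : ℕ → Fin p}

/-- polynomials that are linear in each colour -/
def Cls (c : ℕ → Fin p) (P : R) : Prop := ∃ N0, ∀ N, N0 ≤ N → Typed (legs c N) P

lemma Cls.add {P Q : R} (hP : Cls c P) (hQ : Cls c Q) : Cls c (P + Q) := by
  obtain ⟨N0, h0⟩ := hP
  obtain ⟨N1, h1⟩ := hQ
  exact ⟨max N0 N1, fun N hN => (h0 N (le_of_max_le_left hN)).add (h1 N (le_of_max_le_right hN))⟩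

lemma Cls.smul {P : R} (r : ℝ) (hP : Cls c P) : Cls c (C r * P) := by
  obtain ⟨N0, h0⟩ := hP
  exact ⟨N0, fun N hN => (h0 N hN).smul r⟩

lemma Cls.sub {P Q : R} (hP : Cls c P) (hQ : Cls c Q) : Cls c (P - Q) := by
  have h := hP.add (hQ.smul (-1))
  have e : P + C (-1) * Q = P - Q := by rw [C_neg, C_1]; ring
  rwa [e] at h

lemma Cls.zero : Cls c (0 : R) := ⟨0, fun _ _ => Typed.zero _⟩

lemma Cls.sum {κ : Type*} (s : Finset κ) {P : κ → R} (h : ∀ k ∈ s, Cls c (P k)) :
    Cls c (∑ k ∈ s, P k) := by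
  classical
  induction s using Finset.induction_on with
  | empty => simpa using Cls.zero
  | insert a s ha ih =>
    rw [Finset.sum_insert ha]
    exact (h a (Finset.mem_insert_self _ _)).add
      (ih fun k hk => h k (Finset.mem_insert_of_mem hk))

lemma Cls.prod {i : Fin p → ℕ} (hi : ∀ j, c (i j) = j) : Cls c (∏ j, X (i j)) := by
  refine ⟨(Finset.univ.sup i) + 1, fun N hN => ?_⟩
  refine typed_prod p (leg c N) i fun j => ?_
  rw [mem_leg]
  refine ⟨?_, hi j⟩
  have := Finset.le_sup (f := i) (Finset.mem_univ j)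
  omega

/-- the polynomial with given coefficients -/
noncomputable def pol (s : Finset (Fin p → ℕ)) (a : (Fin p → ℕ) → ℝ) : R :=
  ∑ i ∈ s, C (a i) * ∏ j, X (i j)

lemma eval_pol (s : Finset (Fin p → ℕ)) (a : (Fin p → ℕ) → ℝ) (ω : ℕ → ℝ) :
    eval ω (pol s a) = ∑ i ∈ s, a i * ∏ j, ω (i j) := by
  simp [pol]

lemma Cls.pol {s : Finset (Fin p → ℕ)} (hs : ∀ i ∈ s, ∀ j, c (i j) = j)
    (a : (Fin p → ℕ) → ℝ) : Cls c (pol s a) :=
  Cls.sum s fun i hi => (Cls.prod (hs i hi)).smul _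

lemma Cls.six_le {P : R} (hP : Cls c P) : E (P ^ 6) ≤ 15 ^ p * E (P ^ 2) ^ 3 := by
  obtain ⟨N0, h0⟩ := hP
  have h := A602.six_le (legs_disjoint c N0) (h0 N0 le_rfl)
  rwa [length_legs] at h

/-- covariance with a fixed form -/
lemma Cls.cov (j : Fin p) {P : R} (hP : Cls c P) :
    ∃ S : Finset ℕ, (∀ i ∈ S, c i = j) ∧ ∀ Q : R,
      E (P * Q) = ∑ i ∈ S, E (pderiv i P * pderiv i Q) := by
  obtain ⟨N0, h0⟩ := hP
  refine ⟨leg c N0 j, fun i hi => ((mem_leg c).mp hi).2, fun Q => ?_⟩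
  refine E_mul_leg (legs_disjoint c N0) (h0 N0 le_rfl) ?_ Q
  exact (List.mem_ofFn' _ _).mpr ⟨j, rfl⟩

end Class

lemma Cls.k6_ge {n : ℕ} {c : ℕ → Fin (n + 2)} {P : R} (hP : Cls c P) {i : ℕ}
    (hi : c i = Fin.last (n + 1)) : 120 * E (pderiv i P ^ 2) ^ 3 ≤ k6 P := by
  obtain ⟨N0, h0⟩ := hP
  set N := max N0 (i + 1) with hN
  have h1 := h0 N (le_max_left _ _)
  have hd := legs_disjoint c N
  have e : legs c N = leg c N 0 :: (List.ofFn (fun j : Fin n => leg c N j.castSucc.succ)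
      ++ [leg c N (Fin.last (n + 1))]) := by
    rw [legs, List.ofFn_succ, List.ofFn_succ', List.concat_eq_append, Fin.succ_last]
  rw [e] at h1 hd
  refine A602.k6_ge hd h1 ?_
  rw [mem_leg]
  exact ⟨by have := le_max_right N0 (i + 1); omega, hi⟩

/-! ### Integrals of polynomials -/

lemma memLp_eval (P : R) {q : ℕ} (hq : Even q) (h0 : q ≠ 0) :
    MemLp (fun ω => eval ω P) q γ := by
  refine memLp_of_integrable_pow hq h0 (integrable_eval P).1 ?_
  refine (integrable_eval (P ^ q)).congr (Eventually.of_forall fun ω => ?_)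
  simp

lemma integral_pow_eval (P : R) (q : ℕ) : ∫ ω, (eval ω P) ^ q ∂γ = E (P ^ q) := by
  rw [E_def]
  simp

/-- the sixth cumulant of a random variable with mean zero -/
noncomputable def kap6 (X : (ℕ → ℝ) → ℝ) : ℝ :=
  (∫ ω, X ω ^ 6 ∂γ) - 15 * (∫ ω, X ω ^ 2 ∂γ) * (∫ ω, X ω ^ 4 ∂γ)
    - 10 * (∫ ω, X ω ^ 3 ∂γ) ^ 2 + 30 * (∫ ω, X ω ^ 2 ∂γ) ^ 3

theorem main (n : ℕ) (c : ℕ → Fin (n + 2)) (X : (ℕ → ℝ) → ℝ) (hX : MemLp X 2 γ)
    (happ : ∀ ε : ℝ, 0 < ε → ∃ (s : Finset (Fin (n + 2) → ℕ)) (a : (Fin (n + 2) → ℕ) → ℝ),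
      (∀ i ∈ s, ∀ j, c (i j) = j) ∧ ∫ ω, (X ω - ∑ i ∈ s, a i * ∏ j, ω (i j)) ^ 2 ∂γ < ε)
    (hne : ¬ (∀ᵐ ω ∂γ, X ω = 0)) : 0 < kap6 X := by
  -- the approximations
  obtain ⟨K, hK⟩ : ∃ K : ℝ, K = 15 ^ (n + 2) := ⟨_, rfl⟩
  have h15 : (1 : ℝ) ≤ K := by rw [hK]; exact one_le_pow₀ (by norm_num)
  have hK0 : 0 < K := by linarith
  set δ : ℕ → ℝ := fun N => 1 / (8 * K * 4 ^ N) with hδ
  have hδ0 : ∀ N, 0 < δ N := fun N => by positivity
  have hδanti : ∀ N n, N ≤ n → δ n ≤ δ N := by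
    intro N n hn
    refine one_div_le_one_div_of_le (by positivity) ?_
    gcongr
    norm_num
  have hδlim : Tendsto δ atTop (𝓝 0) := by
    have h1 : Tendsto (fun N : ℕ => (1 / (8 * K) : ℝ) * (1 / 4) ^ N) atTop (𝓝 0) := by
      have := (tendsto_pow_atTop_nhds_zero_of_lt_one (r := (1 / 4 : ℝ)) (by norm_num)
        (by norm_num)).const_mul (1 / (8 * K) : ℝ)
      simpa using this
    refine h1.congr fun N => ?_
    rw [hδ]
    simp only [one_div, mul_inv, inv_pow]
  choose s a hs hsa using fun N => happ (δ N) (hδ0 N)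
  set P : ℕ → R := fun N => pol (s N) (a N) with hPdef
  have hPc : ∀ N, Cls c (P N) := fun N => Cls.pol (hs N) (a N)
  set u : ℕ → (ℕ → ℝ) → ℝ := fun N ω => eval ω (P N) with hu
  have hXu : ∀ N, ∫ ω, (X ω - u N ω) ^ 2 ∂γ < δ N := by
    intro N
    have := hsa N
    simpa only [hu, hPdef, eval_pol] using this
  have c2 : ((2 : ℕ) : ENNReal) = 2 := by norm_num
  have c4 : ((4 : ℕ) : ENNReal) = 4 := by norm_num
  have c6 : ((6 : ℕ) : ENNReal) = 6 := by norm_num
  have hu2 : ∀ N, MemLp (u N) 2 γ := fun N => by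
    have := memLp_eval (P N) (q := 2) (by decide) (by norm_num); rwa [c2] at this
  have hu4 : ∀ N, MemLp (u N) 4 γ := fun N => by
    have := memLp_eval (P N) (q := 4) (by decide) (by norm_num); rwa [c4] at this
  have hu6 : ∀ N, MemLp (u N) 6 γ := fun N => by
    have := memLp_eval (P N) (q := 6) (by decide) (by norm_num); rwa [c6] at this
  have hint : ∀ N, Integrable (fun ω => (X ω - u N ω) ^ 2) γ := fun N => by
    have := integrable_pow_of_memLp (q := 2) (by decide) (by norm_num)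
      (by rw [c2]; exact hX.sub (hu2 N))
    simpa using this
  -- second moments of differences
  have hdiff : ∀ n m, E ((P n - P m) ^ 2) ≤ 2 * δ n + 2 * δ m := by
    intro n m
    rw [← integral_pow_eval]
    calc ∫ ω, (eval ω (P n - P m)) ^ 2 ∂γ
        ≤ ∫ ω, (2 * (X ω - u n ω) ^ 2 + 2 * (X ω - u m ω) ^ 2) ∂γ := by
          refine integral_mono ?_ (((hint n).const_mul 2).add ((hint m).const_mul 2)) fun ω => ?_
          · refine (integrable_eval ((P n - P m) ^ 2)).congr (Eventually.of_forall fun ω => ?_)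
            simp
          · simp only [map_sub]
            change (u n ω - u m ω) ^ 2 ≤ _
            nlinarith [sq_nonneg ((X ω - u n ω) + (X ω - u m ω))]
      _ = 2 * (∫ ω, (X ω - u n ω) ^ 2 ∂γ) + 2 * ∫ ω, (X ω - u m ω) ^ 2 ∂γ := by
          rw [integral_add ((hint n).const_mul 2) ((hint m).const_mul 2), integral_const_mul,
            integral_const_mul]
      _ ≤ _ := by have := hXu n; have := hXu m; linarith
  have hE2 : ∀ Q : R, 0 ≤ E (Q ^ 2) := fun Q => E_nonneg fun ω => by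
    rw [map_pow]; exact sq_nonneg _
  -- Cauchy in L⁶
  have h6 : ∀ N n m : ℕ, N ≤ n → N ≤ m →
      ∫ ω, (u n ω - u m ω) ^ 6 ∂γ < ((1 / 2 : ℝ) ^ N) ^ 6 := by
    intro N n m hn hm
    have e1 : ∫ ω, (u n ω - u m ω) ^ 6 ∂γ = E ((P n - P m) ^ 6) := by
      rw [← integral_pow_eval]
      simp only [map_sub, hu]
    rw [e1]
    have h1 := ((hPc n).sub (hPc m)).six_le
    rw [← hK] at h1
    have h2 : E ((P n - P m) ^ 2) ≤ 4 * δ N := by
      have := hdiff n m
      have := hδanti N n hn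
      have := hδanti N m hm
      linarith
    have h3 : E ((P n - P m) ^ 2) ^ 3 ≤ (4 * δ N) ^ 3 := pow_le_pow_left₀ (hE2 _) h2 3
    have h4 : K * (4 * δ N) ^ 3 < ((1 / 2 : ℝ) ^ N) ^ 6 := by
      have e2 : ((1 / 2 : ℝ) ^ N) ^ 6 = 1 / (4 ^ N) ^ 3 := by
        rw [one_div, inv_pow, inv_pow, one_div]
        congr 1
        rw [← pow_mul, ← pow_mul, show (4 : ℝ) = 2 ^ 2 by norm_num, ← pow_mul]
        congr 1; ring
      have e3 : K * (4 * δ N) ^ 3 = 1 / (8 * K ^ 2 * (4 ^ N) ^ 3) := by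
        rw [hδ]
        field_simp
        norm_num
      rw [e2, e3]
      refine one_div_lt_one_div_of_lt (by positivity) ?_
      have h5 : (0 : ℝ) < (4 ^ N) ^ 3 := by positivity
      have h7 : (1 : ℝ) ≤ K ^ 2 := one_le_pow₀ h15
      have h8 : (1 : ℝ) < 8 * K ^ 2 := by linarith
      have h9 := mul_lt_mul_of_pos_right h8 h5
      linarith
    calc E ((P n - P m) ^ 6) ≤ K * E ((P n - P m) ^ 2) ^ 3 := h1
      _ ≤ K * (4 * δ N) ^ 3 := mul_le_mul_of_nonneg_left h3 (by positivity)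
      _ < _ := h4
  have hlim2 : Tendsto (fun N => ∫ ω, (X ω - u N ω) ^ 2 ∂γ) atTop (𝓝 0) :=
    squeeze_zero (fun N => integral_nonneg fun ω => sq_nonneg _) (fun N => (hXu N).le) hδlim
  obtain ⟨hX6, hL6⟩ := exists_L6 hX hu6 hlim2 h6
  -- convergence of the moments
  have hX4 : MemLp X 4 γ := hX6.mono_exponent (by norm_num)
  have hL4 : Tendsto (fun N => eLpNorm (u N - X) 4 γ) atTop (𝓝 0) :=
    tendsto_of_tendsto_of_tendsto_of_le_of_le tendsto_const_nhds hL6 (fun _ => bot_le)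
      fun N => eLpNorm_le_eLpNorm_of_exponent_le (by norm_num) ((hu6 N).1.sub hX.1)
  have hL2 : Tendsto (fun N => eLpNorm (u N - X) 2 γ) atTop (𝓝 0) :=
    tendsto_of_tendsto_of_tendsto_of_le_of_le tendsto_const_nhds hL6 (fun _ => bot_le)
      fun N => eLpNorm_le_eLpNorm_of_exponent_le (by norm_num) ((hu6 N).1.sub hX.1)
  have m2 : Tendsto (fun N => E (P N ^ 2)) atTop (𝓝 (∫ ω, X ω ^ 2 ∂γ)) := by
    have := tendsto_moment (q := 2) (by decide) (by norm_num) (by simpa only [c2] using hu2)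
      (by rw [c2]; exact hX) (by simpa only [c2] using hL2)
    refine this.congr fun N => integral_pow_eval _ _
  have m4 : Tendsto (fun N => E (P N ^ 4)) atTop (𝓝 (∫ ω, X ω ^ 4 ∂γ)) := by
    have := tendsto_moment (q := 4) (by decide) (by norm_num) (by simpa only [c4] using hu4)
      (by rw [c4]; exact hX4) (by simpa only [c4] using hL4)
    refine this.congr fun N => integral_pow_eval _ _
  have m6 : Tendsto (fun N => E (P N ^ 6)) atTop (𝓝 (∫ ω, X ω ^ 6 ∂γ)) := by
    have := tendsto_moment (q := 6) (by decide) (by norm_num) (by simpa only [c6] using hu6)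
      (by rw [c6]; exact hX6) (by simpa only [c6] using hL6)
    refine this.congr fun N => integral_pow_eval _ _
  -- third moments
  have hE3 : ∀ N, E (P N ^ 3) = 0 := by
    intro N
    obtain ⟨N0, h0⟩ := hPc N
    have h1 := h0 N0 le_rfl
    have hd := legs_disjoint c N0
    have e : legs c N0 = leg c N0 0 :: List.ofFn (fun j : Fin (n + 1) => leg c N0 j.succ) := by
      rw [legs, List.ofFn_succ]
    rw [e] at h1 hd
    obtain ⟨y, hy, h2⟩ := h1
    rw [List.pairwise_cons] at hd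
    rw [h2]
    exact E_form_three fun z _ => (hy z).free hd.1
  have iX4 : Integrable (fun ω => X ω ^ 4) γ :=
    integrable_pow_of_memLp (q := 4) (by decide) (by norm_num) (by rw [c4]; exact hX4)
  have iX2 : Integrable (fun ω => X ω ^ 2) γ :=
    integrable_pow_of_memLp (q := 2) (by decide) (by norm_num) (by rw [c2]; exact hX)
  have iX3 : Integrable (fun ω => X ω ^ 3) γ := by
    refine Integrable.mono' (iX4.add iX2) ((hX.1.pow 3)) (Eventually.of_forall fun ω => ?_)
    simp only [Pi.add_apply, Real.norm_eq_abs]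
    rw [abs_le]
    constructor
    · nlinarith [sq_nonneg (X ω ^ 2 + X ω), sq_nonneg (X ω ^ 2 - X ω), sq_nonneg (X ω)]
    · nlinarith [sq_nonneg (X ω ^ 2 + X ω), sq_nonneg (X ω ^ 2 - X ω), sq_nonneg (X ω)]
  have hX3 : ∫ ω, X ω ^ 3 ∂γ = 0 := by
    have key : ∀ ε : ℝ, 0 < ε → |∫ ω, X ω ^ 3 ∂γ| ≤ 3 * ε * (2 * ∫ ω, X ω ^ 4 ∂γ) := by
      intro ε hε
      have h1 : ∀ N, |∫ ω, X ω ^ 3 ∂γ| ≤ ε⁻¹ * (∫ ω, (X ω - u N ω) ^ 2 ∂γ)
          + 3 * ε * ((∫ ω, X ω ^ 4 ∂γ) + E (P N ^ 4)) := by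
        intro N
        have iu3 : Integrable (fun ω => u N ω ^ 3) γ := by
          refine (integrable_eval (P N ^ 3)).congr (Eventually.of_forall fun ω => ?_)
          simp [hu]
        have iu4 : Integrable (fun ω => u N ω ^ 4) γ := by
          refine (integrable_eval (P N ^ 4)).congr (Eventually.of_forall fun ω => ?_)
          simp [hu]
        have e1 : ∫ ω, X ω ^ 3 ∂γ = ∫ ω, (X ω ^ 3 - u N ω ^ 3) ∂γ := by
          rw [integral_sub iX3 iu3]
          have : ∫ ω, u N ω ^ 3 ∂γ = 0 := by rw [← hE3 N]; exact integral_pow_eval _ _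
          rw [this, sub_zero]
        have e2 : E (P N ^ 4) = ∫ ω, u N ω ^ 4 ∂γ := (integral_pow_eval _ _).symm
        have i4 : Integrable (fun ω => X ω ^ 4 + u N ω ^ 4) γ := iX4.add iu4
        rw [e1, e2]
        calc |∫ ω, (X ω ^ 3 - u N ω ^ 3) ∂γ| ≤ ∫ ω, |X ω ^ 3 - u N ω ^ 3| ∂γ :=
              abs_integral_le_integral_abs
          _ ≤ ∫ ω, (ε⁻¹ * (X ω - u N ω) ^ 2 + 3 * ε * (X ω ^ 4 + u N ω ^ 4)) ∂γ := by
              refine integral_mono (iX3.sub iu3).abs (((hint N).const_mul _).add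
                (i4.const_mul _)) fun ω => ?_
              exact abs_cube_sub_le (X ω) (u N ω) hε
          _ = _ := by
              rw [integral_add ((hint N).const_mul _) (i4.const_mul _),
                integral_const_mul, integral_const_mul, integral_add iX4 iu4]
      have h2 : Tendsto (fun N => ε⁻¹ * (∫ ω, (X ω - u N ω) ^ 2 ∂γ)
          + 3 * ε * ((∫ ω, X ω ^ 4 ∂γ) + E (P N ^ 4))) atTop
          (𝓝 (ε⁻¹ * 0 + 3 * ε * ((∫ ω, X ω ^ 4 ∂γ) + ∫ ω, X ω ^ 4 ∂γ))) :=
        (hlim2.const_mul _).add ((tendsto_const_nhds.add m4).const_mul _)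
      have h3 := ge_of_tendsto' h2 h1
      calc _ ≤ _ := h3
        _ = _ := by ring
    have h4 : 0 ≤ ∫ ω, X ω ^ 4 ∂γ := integral_nonneg fun ω => by positivity
    by_contra h0
    have h5 : 0 < |∫ ω, X ω ^ 3 ∂γ| := abs_pos.mpr h0
    set A := ∫ ω, X ω ^ 4 ∂γ with hA
    have h6 := key (|∫ ω, X ω ^ 3 ∂γ| / (12 * (A + 1))) (by positivity)
    have h7 : 3 * (|∫ ω, X ω ^ 3 ∂γ| / (12 * (A + 1))) * (2 * A)
        = |∫ ω, X ω ^ 3 ∂γ| * (A / (2 * (A + 1))) := by
      field_simp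
      ring
    rw [h7] at h6
    have h8 : A / (2 * (A + 1)) < 1 := by
      rw [div_lt_one (by positivity)]
      linarith
    nlinarith
  -- the cumulants converge
  have hk : Tendsto (fun N => k6 (P N)) atTop (𝓝 (kap6 X)) := by
    unfold k6 kap6
    simp only [hE3, hX3]
    exact ((m6.sub ((m2.const_mul 15).mul m4)).sub tendsto_const_nhds).add ((m2.pow 3).const_mul 30)
  by_contra hneg
  push Not at hneg
  -- the influences tend to zero
  have hinf : ∀ i, c i = Fin.last (n + 1) →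
      Tendsto (fun N => E (pderiv i (P N) ^ 2)) atTop (𝓝 0) := by
    intro i hi
    have h1 : ∀ N, 120 * E (pderiv i (P N) ^ 2) ^ 3 ≤ k6 (P N) := fun N => (hPc N).k6_ge hi
    have h2 : Tendsto (fun N => E (pderiv i (P N) ^ 2) ^ 3) atTop (𝓝 0) := by
      have h3 : Tendsto (fun N => k6 (P N) / 120) atTop (𝓝 (kap6 X / 120)) := hk.div_const _
      have h4 : kap6 X = 0 := by
        refine le_antisymm hneg (ge_of_tendsto' hk fun N => ?_)
        have := hE2 (pderiv i (P N))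
        have := h1 N
        have : 0 ≤ E (pderiv i (P N) ^ 2) ^ 3 := by positivity
        linarith
      rw [h4, zero_div] at h3
      refine squeeze_zero (fun N => by have := hE2 (pderiv i (P N)); positivity) (fun N => ?_) h3
      have := h1 N
      linarith
    have h5 := h2.rpow_const (p := (1 / 3 : ℝ)) (Or.inr (by norm_num))
    have e0 : (0 : ℝ) ^ (1 / 3 : ℝ) = 0 := Real.zero_rpow (by norm_num)
    rw [e0] at h5
    refine h5.congr fun N => ?_
    rw [← Real.rpow_natCast, ← Real.rpow_mul (hE2 _)]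
    norm_num
  -- covariances with a fixed approximation tend to zero
  have hcov : ∀ m, Tendsto (fun N => E (P m * P N)) atTop (𝓝 0) := by
    intro m
    obtain ⟨S, hS, hE⟩ := (hPc m).cov (Fin.last (n + 1))
    simp only [hE]
    rw [show (0 : ℝ) = ∑ i ∈ S, (0 : ℝ) by simp]
    refine tendsto_finsetSum S fun i hi => ?_
    have h1 := (hinf i (hS i hi)).const_mul (E (pderiv i (P m) ^ 2))
    rw [mul_zero] at h1
    have h2 := h1.sqrt
    rw [Real.sqrt_zero] at h2
    refine squeeze_zero_norm (fun N => ?_) h2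
    rw [Real.norm_eq_abs]
    exact Real.abs_le_sqrt (E_cauchy _ _)
  -- conclusion
  have hσ : ∀ m, ∫ ω, X ω ^ 2 ∂γ ≤ 2 * δ m := by
    intro m
    have h1 : Tendsto (fun N => E ((P N - P m) ^ 2)) atTop
        (𝓝 ((∫ ω, X ω ^ 2 ∂γ) - 2 * 0 + E (P m ^ 2))) := by
      have h2 := (m2.sub ((hcov m).const_mul 2)).add_const (E (P m ^ 2))
      refine h2.congr fun N => ?_
      have e : (P N - P m) ^ 2 = P N ^ 2 - (2 : ℝ) • (P m * P N) + P m ^ 2 := by
        rw [Algebra.smul_def, map_ofNat]; ring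
      rw [e, map_add, map_sub, map_smul, smul_eq_mul]
    have h3 : Tendsto (fun N => 2 * δ N + 2 * δ m) atTop (𝓝 (2 * 0 + 2 * δ m)) :=
      (hδlim.const_mul 2).add_const _
    have h4 := le_of_tendsto_of_tendsto' h1 h3 fun N => hdiff N m
    have := hE2 (P m)
    linarith
  have hσ0 : ∫ ω, X ω ^ 2 ∂γ ≤ 0 := by
    have h1 : Tendsto (fun m => 2 * δ m) atTop (𝓝 (2 * 0)) := hδlim.const_mul 2
    rw [mul_zero] at h1
    exact ge_of_tendsto' h1 hσ
  refine hne ?_
  have h1 : ∫ ω, X ω ^ 2 ∂γ = 0 := le_antisymm hσ0 (integral_nonneg fun ω => sq_nonneg _)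
  rw [integral_eq_zero_iff_of_nonneg (fun ω => sq_nonneg _) iX2] at h1
  filter_upwards [h1] with ω hω
  simpa using hω

end A602
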