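import Pool.Agent.Lib.MP_a60258_pr.Legs

/-!
# Positivity for polynomials that are linear in each of several groups of variables
-/

open MeasureTheory ProbabilityTheory MvPolynomial

set_option linter.unusedSectionVars false

namespace A602

/-! ### Commutation of partial derivatives -/

lemma pderiv_comm (i j : ℕ) (P : R) : pderiv i (pderiv j P) = pderiv j (pderiv i P) := by
  have h : ⁅(pderiv i : Derivation ℝ R R), (pderiv j : Derivation ℝ R R)⁆ = 0 := by
    refine MvPolynomial.derivation_ext fun k => ?_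
    rw [Derivation.commutator_apply]
    by_cases hj : j = k
    · subst hj
      by_cases hi : i = j
      · subst hi; simp
      · rw [pderiv_X_self, pderiv_X_of_ne (Ne.symm hi)]; simp
    · rw [pderiv_X_of_ne (Ne.symm hj)]
      by_cases hi : i = k
      · subst hi; rw [pderiv_X_self]; simp
      · rw [pderiv_X_of_ne (Ne.symm hi)]; simp
  have h1 := congrArg (fun d : Derivation ℝ R R => d P) h
  simp only [Derivation.commutator_apply] at h1
  simpa [sub_eq_zero] using h1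

/-! ### Convexity -/

/-- second derivatives along the leg vanish -/
def Aff (S : Finset ℕ) (P : R) : Prop := ∀ i ∈ S, ∀ j ∈ S, pderiv i (pderiv j P) = 0

lemma Aff.DD {S : Finset ℕ} {c : ℕ → R} (hc : ∀ i ∈ S, Free S (c i)) {P : R} (h : Aff S P) :
    D S c (D S c P) = 0 := by
  rw [D_apply S c P, D_apply]
  refine Finset.sum_eq_zero fun i hi => ?_
  rw [map_sum]
  have : ∑ j ∈ S, pderiv i (c j * pderiv j P) = 0 := by
    refine Finset.sum_eq_zero fun j hj => ?_
    rw [Derivation.leibniz, h i hi j hj, hc j hj i hi]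
    simp
  rw [this, mul_zero]

/-- the function `h` is convex along the leg `S` in the directions given by polynomials -/
def Conv (S : Finset ℕ) (h : R) : Prop :=
  ∀ c : ℕ → R, (∀ i ∈ S, Free S (c i)) → ∀ ω, 0 ≤ eval ω (D S c (D S c h))

/-- comparison in one leg -/
lemma E_sq_mul_ge {S : Finset ℕ} {b : ℕ → R} (hb : ∀ i ∈ S, Free S (b i)) {h : R}
    (hh : Conv S h) :
    E ((∑ i ∈ S, b i ^ 2) * h) ≤ E ((∑ i ∈ S, X i * b i) ^ 2 * h) := by
  have hF : Free S (∑ i ∈ S, b i ^ 2) :=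
    Free.sum _ fun i hi => by rw [pow_two]; exact (hb i hi).mul (hb i hi)
  have e1 : (∑ i ∈ S, X i * b i) ^ 2 * h = (∑ i ∈ S, X i * b i) * ((∑ i ∈ S, X i * b i) * h) := by
    ring
  rw [e1, E_leg_mul hb, Derivation.leibniz, D_leg hb, map_add, smul_eq_mul, E_leg_mul hb]
  have e2 : h • ∑ i ∈ S, b i * b i = (∑ i ∈ S, b i ^ 2) * h := by
    rw [smul_eq_mul, mul_comm]
    congr 1
    exact Finset.sum_congr rfl fun i _ => (pow_two _).symm
  rw [e2]
  have := E_nonneg (hh b hb)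
  linarith

lemma conv_Hf {ι : Type} [Fintype ι] {S0 : Finset ℕ} {b : ι → ℕ → R} {S : Finset ℕ}
    (hb : ∀ l, ∀ i ∈ S0, Aff S (b l i)) : Conv S (Hf S0 b) := by
  intro c hc ω
  set d := D S c with hd
  have hdd : ∀ l, ∀ i ∈ S0, d (d (b l i)) = 0 := fun l i hi => (hb l i hi).DD hc
  -- second derivative of the Gram matrix
  have hK : ∀ l m, d (d (Kf S0 b l m)) = 2 * ∑ i ∈ S0, d (b l i) * d (b m i) := by
    intro l m
    unfold Kf
    rw [map_sum, map_sum, Finset.mul_sum]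
    refine Finset.sum_congr rfl fun i hi => ?_
    simp only [Derivation.leibniz, map_add, smul_eq_mul, hdd l i hi, hdd m i hi]
    ring
  have hH : d (d (Hf S0 b)) = 2 * ∑ l, ∑ m, d (Kf S0 b l m) ^ 2
      + 4 * ∑ i ∈ S0, ∑ j ∈ S0, (∑ l, b l i * d (b l j)) ^ 2 := by
    have e1 : d (d (Hf S0 b)) = ∑ l, ∑ m, (2 * d (Kf S0 b l m) ^ 2
        + 2 * (Kf S0 b l m * d (d (Kf S0 b l m)))) := by
      unfold Hf
      simp only [map_sum]
      refine Finset.sum_congr rfl fun l _ => Finset.sum_congr rfl fun m _ => ?_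
      rw [pow_two, Derivation.leibniz, map_add]
      simp only [smul_eq_mul, Derivation.leibniz]
      ring
    rw [e1]
    simp only [Finset.sum_add_distrib, Finset.mul_sum]
    congr 1
    -- reorganise the sum
    have e2 : ∀ l m, 2 * (Kf S0 b l m * d (d (Kf S0 b l m)))
        = ∑ i ∈ S0, ∑ j ∈ S0, 4 * ((b l i * d (b l j)) * (b m i * d (b m j))) := by
      intro l m
      rw [hK]
      unfold Kf
      rw [Finset.mul_sum, Finset.sum_mul_sum, Finset.mul_sum]
      refine Finset.sum_congr rfl fun i _ => ?_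
      rw [Finset.mul_sum]
      refine Finset.sum_congr rfl fun j _ => ?_
      ring
    simp only [e2]
    have e3 : ∀ i j, 4 * (∑ l, b l i * d (b l j)) ^ 2
        = ∑ l, ∑ m, 4 * ((b l i * d (b l j)) * (b m i * d (b m j))) := by
      intro i j
      rw [pow_two, Finset.sum_mul_sum, Finset.mul_sum]
      exact Finset.sum_congr rfl fun l _ => by rw [Finset.mul_sum]
    simp only [e3]
    calc ∑ l, ∑ m, ∑ i ∈ S0, ∑ j ∈ S0, 4 * ((b l i * d (b l j)) * (b m i * d (b m j)))
        = ∑ l, ∑ i ∈ S0, ∑ m, ∑ j ∈ S0, 4 * ((b l i * d (b l j)) * (b m i * d (b m j))) :=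
          Finset.sum_congr rfl fun l _ => Finset.sum_comm
      _ = ∑ i ∈ S0, ∑ l, ∑ m, ∑ j ∈ S0, 4 * ((b l i * d (b l j)) * (b m i * d (b m j))) :=
          Finset.sum_comm
      _ = ∑ i ∈ S0, ∑ l, ∑ j ∈ S0, ∑ m, 4 * ((b l i * d (b l j)) * (b m i * d (b m j))) :=
          Finset.sum_congr rfl fun i _ => Finset.sum_congr rfl fun l _ => Finset.sum_comm
      _ = ∑ i ∈ S0, ∑ j ∈ S0, ∑ l, ∑ m, 4 * ((b l i * d (b l j)) * (b m i * d (b m j))) :=
          Finset.sum_congr rfl fun i _ => Finset.sum_comm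
  rw [hH]
  simp only [map_add, map_mul, map_sum, map_pow, map_ofNat]
  positivity

/-! ### Cubes -/

section Family

variable {ι : Type} [Fintype ι] {S : Finset ℕ} {b : ι → ℕ → R}

lemma Cf_eq : Cf S b = ∑ i ∈ S, ∑ n, (∑ m, b m i * Kf S b m n) ^ 2 := by
  have e1 : ∀ i n, (∑ m, b m i * Kf S b m n) ^ 2
      = ∑ l, ∑ m, (b l i * b m i) * (Kf S b l n * Kf S b m n) := by
    intro i n
    rw [pow_two, Finset.sum_mul_sum]
    exact Finset.sum_congr rfl fun l _ => Finset.sum_congr rfl fun m _ => by ring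
  simp only [e1]
  have e2 : Cf S b = ∑ l, ∑ m, ∑ n, ∑ i ∈ S, (b l i * b m i) * (Kf S b l n * Kf S b m n) := by
    unfold Cf
    refine Finset.sum_congr rfl fun l _ => Finset.sum_congr rfl fun m _ =>
      Finset.sum_congr rfl fun n _ => ?_
    conv_lhs => rw [Kf, Finset.sum_mul]
  rw [e2]
  calc ∑ l, ∑ m, ∑ n, ∑ i ∈ S, (b l i * b m i) * (Kf S b l n * Kf S b m n)
      = ∑ l, ∑ n, ∑ m, ∑ i ∈ S, (b l i * b m i) * (Kf S b l n * Kf S b m n) :=
        Finset.sum_congr rfl fun l _ => Finset.sum_comm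
    _ = ∑ n, ∑ l, ∑ m, ∑ i ∈ S, (b l i * b m i) * (Kf S b l n * Kf S b m n) := Finset.sum_comm
    _ = ∑ n, ∑ l, ∑ i ∈ S, ∑ m, (b l i * b m i) * (Kf S b l n * Kf S b m n) :=
        Finset.sum_congr rfl fun n _ => Finset.sum_congr rfl fun l _ => Finset.sum_comm
    _ = ∑ n, ∑ i ∈ S, ∑ l, ∑ m, (b l i * b m i) * (Kf S b l n * Kf S b m n) :=
        Finset.sum_congr rfl fun n _ => Finset.sum_comm
    _ = ∑ i ∈ S, ∑ n, ∑ l, ∑ m, (b l i * b m i) * (Kf S b l n * Kf S b m n) := Finset.sum_comm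

lemma eval_Cf_nonneg (ω : ℕ → ℝ) : 0 ≤ eval ω (Cf S b) := by
  rw [Cf_eq]
  simp only [map_sum, map_pow]
  positivity

lemma eval_Hf_nonneg (ω : ℕ → ℝ) : 0 ≤ eval ω (Hf S b) := by
  unfold Hf
  simp only [map_sum, map_pow]
  positivity

lemma eval_Tf_nonneg (ω : ℕ → ℝ) : 0 ≤ eval ω (Tf S b) := by
  unfold Tf Kf
  simp only [map_sum, map_mul]
  exact Finset.sum_nonneg fun l _ => Finset.sum_nonneg fun i _ => mul_self_nonneg _

lemma eval_Hf_le (ω : ℕ → ℝ) : eval ω (Hf S b) ≤ eval ω (Tf S b) ^ 2 := by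
  have h1 : ∀ l m, eval ω (Kf S b l m) ^ 2 ≤ eval ω (Kf S b l l) * eval ω (Kf S b m m) := by
    intro l m
    unfold Kf
    simp only [map_sum, map_mul]
    have := Finset.sum_mul_sq_le_sq_mul_sq S (fun i => eval ω (b l i)) (fun i => eval ω (b m i))
    simpa only [pow_two] using this
  have h2 : eval ω (Hf S b) = ∑ l, ∑ m, eval ω (Kf S b l m) ^ 2 := by
    unfold Hf; simp only [map_sum, map_pow]
  have h3 : eval ω (Tf S b) ^ 2 = ∑ l, ∑ m, eval ω (Kf S b l l) * eval ω (Kf S b m m) := by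
    unfold Tf; rw [map_sum, pow_two, Finset.sum_mul_sum]
  rw [h2, h3]
  exact Finset.sum_le_sum fun l _ => Finset.sum_le_sum fun m _ => h1 l m

lemma eval_Cf_le (ω : ℕ → ℝ) : eval ω (Cf S b) ≤ eval ω (Tf S b) ^ 3 := by
  have h1 : eval ω (Cf S b) ≤ eval ω (Tf S b) * eval ω (Hf S b) := by
    rw [Cf_eq]
    have h2 : eval ω (Tf S b) * eval ω (Hf S b)
        = ∑ i ∈ S, ∑ n, (∑ m, eval ω (b m i) ^ 2) * ∑ m, eval ω (Kf S b m n) ^ 2 := by
      unfold Tf Hf
      simp only [map_sum, map_pow]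
      rw [Finset.sum_comm (s := Finset.univ) (t := Finset.univ)]
      have h3 : ∑ l, eval ω (Kf S b l l) = ∑ i ∈ S, ∑ m, eval ω (b m i) ^ 2 := by
        unfold Kf
        simp only [map_sum, map_mul]
        rw [Finset.sum_comm]
        simp only [pow_two]
      rw [h3, Finset.sum_mul]
      refine Finset.sum_congr rfl fun i _ => ?_
      rw [Finset.mul_sum]
    rw [h2]
    simp only [map_sum, map_pow, map_mul]
    refine Finset.sum_le_sum fun i _ => Finset.sum_le_sum fun n _ => ?_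
    exact Finset.sum_mul_sq_le_sq_mul_sq Finset.univ (fun m => eval ω (b m i))
      (fun m => eval ω (Kf S b m n))
  have h4 := eval_Hf_le (S := S) (b := b) ω
  have h5 := eval_Tf_nonneg (S := S) (b := b) ω
  calc eval ω (Cf S b) ≤ eval ω (Tf S b) * eval ω (Hf S b) := h1
    _ ≤ eval ω (Tf S b) * eval ω (Tf S b) ^ 2 := mul_le_mul_of_nonneg_left h4 h5
    _ = _ := by ring

end Family

end A602
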