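import Pool.Agent.Lib.MP_a60258_pr.Pos

/-!
# Typed polynomials and the positivity of cumulants
-/

open MeasureTheory ProbabilityTheory MvPolynomial

set_option linter.unusedSectionVars false

namespace A602

/-- `P` is a linear form in the variables of each leg of the list (and has no other variables) -/
def Typed : List (Finset ℕ) → R → Prop
  | [], P => ∃ c : ℝ, P = C c
  | S :: L, P => ∃ b : ℕ → R, (∀ i, Typed L (b i)) ∧ P = ∑ i ∈ S, X i * b i

lemma Typed.zero : ∀ L : List (Finset ℕ), Typed L 0
  | [] => ⟨0, by simp⟩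
  | S :: L => ⟨fun _ => 0, fun _ => Typed.zero L, by simp⟩

lemma Typed.add : ∀ {L : List (Finset ℕ)} {P Q : R}, Typed L P → Typed L Q → Typed L (P + Q)
  | [], _, _, ⟨c, hc⟩, ⟨d, hd⟩ => ⟨c + d, by rw [hc, hd, map_add]⟩
  | S :: L, _, _, ⟨b, hb, h1⟩, ⟨c, hc, h2⟩ => ⟨fun i => b i + c i,
      fun i => (hb i).add (hc i), by
        rw [h1, h2, ← Finset.sum_add_distrib]
        exact Finset.sum_congr rfl fun i _ => by ring⟩

lemma Typed.smul : ∀ {L : List (Finset ℕ)} {P : R} (r : ℝ), Typed L P → Typed L (C r * P)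
  | [], _, r, ⟨c, hc⟩ => ⟨r * c, by rw [hc, map_mul]⟩
  | S :: L, _, r, ⟨b, hb, h1⟩ => ⟨fun i => C r * b i, fun i => (hb i).smul r, by
        rw [h1, Finset.mul_sum]
        exact Finset.sum_congr rfl fun i _ => by ring⟩

lemma Typed.sum {L : List (Finset ℕ)} {κ : Type*} (s : Finset κ) {P : κ → R}
    (h : ∀ k ∈ s, Typed L (P k)) : Typed L (∑ k ∈ s, P k) := by
  classical
  induction s using Finset.induction_on with
  | empty => simpa using Typed.zero L
  | insert a s ha ih =>
    rw [Finset.sum_insert ha]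
    exact (h a (Finset.mem_insert_self _ _)).add
      (ih fun k hk => h k (Finset.mem_insert_of_mem hk))

/-- typed polynomials only involve the variables of their legs -/
lemma Typed.free : ∀ {L : List (Finset ℕ)} {P : R} {S : Finset ℕ}, Typed L P →
    (∀ S' ∈ L, Disjoint S S') → Free S P
  | [], _, S, ⟨c, hc⟩, _ => by rw [hc]; exact Free.C S c
  | S' :: L, _, S, ⟨b, hb, h1⟩, hd => by
      rw [h1]
      refine Free.sum _ fun i hi => Free.mul ?_
        ((hb i).free fun S'' h => hd S'' (List.mem_cons_of_mem _ h))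
      intro j hj
      have := Finset.disjoint_left.mp (hd S' List.mem_cons_self) hj
      exact pderiv_X_of_ne fun h => this (h ▸ hi)

lemma pderiv_free {i : ℕ} {P : R} {S : Finset ℕ} (h : Free S P) : Free S (pderiv i P) := by
  intro j hj
  rw [pderiv_comm, h j hj, map_zero]

/-- typed polynomials are affine in each leg -/
lemma Typed.aff : ∀ {L : List (Finset ℕ)} {P : R}, L.Pairwise Disjoint → Typed L P →
    ∀ S ∈ L, Aff S P
  | [], _, _, _, S, hS => absurd hS (by simp)
  | S' :: L, _, hL, ⟨b, hb, h1⟩, S, hS => by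
      rw [List.pairwise_cons] at hL
      rw [h1]
      have hfree : ∀ i ∈ S', Free S' (b i) := fun i _ => (hb i).free hL.1
      intro i hi j hj
      rcases List.mem_cons.mp hS with rfl | hS
      · rw [pderiv_leg hfree hj]
        exact hfree j hj i hi
      · have hd := hL.1 S hS
        have hij : ∀ i ∈ S, ∀ G : R, ∀ k ∈ S', pderiv i (X k * G) = X k * pderiv i G := by
          intro i hi G k hk
          have h2 : k ≠ i := fun h => Finset.disjoint_left.mp hd hk (h ▸ hi)
          rw [Derivation.leibniz, pderiv_X_of_ne h2]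
          simp
        rw [map_sum, map_sum]
        refine Finset.sum_eq_zero fun k hk => ?_
        rw [hij j hj _ k hk, hij i hi _ k hk, (hb k).aff hL.2 S hS i hi j hj, mul_zero]

/-! ### The correlation inequality -/

lemma Typed.cov : ∀ {L : List (Finset ℕ)} {F h : R}, L.Pairwise Disjoint → Typed L F →
    (∀ S ∈ L, Conv S h) → E (F ^ 2) * E h ≤ E (F ^ 2 * h)
  | [], _, h, _, ⟨c, hc⟩, _ => by
      rw [hc, ← map_pow, E_C, ← smul_eq_C_mul, map_smul, smul_eq_mul]
  | S :: L, _, h, hL, ⟨b, hb, h1⟩, hh => by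
      rw [List.pairwise_cons] at hL
      have hfree : ∀ i ∈ S, Free S (b i) := fun i _ => (hb i).free hL.1
      have e1 := E_sq_mul_ge hfree (hh S List.mem_cons_self)
      have e2 : E ((∑ i ∈ S, X i * b i) ^ 2) = ∑ i ∈ S, E (b i ^ 2) := by
        have h3 : (∑ i ∈ S, X i * b i) ^ 2 = (∑ i ∈ S, X i * b i) * (∑ i ∈ S, X i * b i) :=
          pow_two _
        rw [h3, E_leg_mul hfree, D_leg hfree, map_sum]
        exact Finset.sum_congr rfl fun i _ => by rw [pow_two]
      rw [h1, e2]
      refine le_trans ?_ e1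
      rw [Finset.sum_mul, Finset.sum_mul, map_sum]
      exact Finset.sum_le_sum fun i _ => (hb i).cov hL.2 fun S' hS' =>
        hh S' (List.mem_cons_of_mem _ hS')

/-! ### The third cumulant of a sum of squares -/

/-- third cumulant -/
noncomputable def k3 (V : R) : ℝ := E (V ^ 3) - 3 * E (V ^ 2) * E V + 2 * E V ^ 3

section Family

variable {ι : Type} [Fintype ι] {S : Finset ℕ} {b : ι → ℕ → R}

lemma Tf_eq : Tf S b = ∑ x : ι × S, b x.1 x.2 ^ 2 := by
  unfold Tf Kf
  rw [Fintype.sum_prod_type]
  refine Finset.sum_congr rfl fun l _ => ?_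
  rw [Finset.sum_coe_sort S (fun i => b l i ^ 2)]
  exact Finset.sum_congr rfl fun i _ => (pow_two _).symm

lemma E_Vf (hb : ∀ l, ∀ i ∈ S, Free S (b l i)) : E (Vf S b) = E (Tf S b) := by
  have h := E_Vf_mul hb (q := 1) (by intro i _; simp)
  simpa using h

/-- the recursion -/
lemma k3_Vf (hb : ∀ l, ∀ i ∈ S, Free S (b l i)) :
    k3 (Vf S b) = k3 (Tf S b) + 6 * (E (Tf S b * Hf S b) - E (Tf S b) * E (Hf S b))
      + 8 * E (Cf S b) := by
  have h2 := E_Vf_sq_mul hb (q := 1) (by intro i _; simp)
  simp only [mul_one] at h2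
  unfold k3
  rw [E_Vf_cube hb, h2, E_Vf hb]
  ring

lemma E_Cf_nonneg : 0 ≤ E (Cf S b) := E_nonneg eval_Cf_nonneg

end Family

/-- the variance of the part that contains the variable `i` -/
noncomputable def infl {ι : Type} [Fintype ι] (i : ℕ) (Y : ι → R) : ℝ :=
  ∑ l, E (pderiv i (Y l) ^ 2)

lemma Typed.family {ι : Type} {S : Finset ℕ} {L : List (Finset ℕ)} {Y : ι → R}
    (hY : ∀ l, Typed (S :: L) (Y l)) :
    ∃ b : ι → ℕ → R, (∀ l i, Typed L (b l i)) ∧ ∀ l, Y l = Yf S b l := by
  choose b hb h using hY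
  exact ⟨b, hb, h⟩

/-- **Positivity of the third cumulant of a sum of squares of decoupled forms.** -/
theorem k3_ge : ∀ (L : List (Finset ℕ)) (S0 : Finset ℕ), (L ++ [S0]).Pairwise Disjoint →
    ∀ (ι : Type) [Fintype ι] (Y : ι → R), (∀ l, Typed (L ++ [S0]) (Y l)) → ∀ i ∈ S0,
      8 * infl i Y ^ 3 ≤ k3 (∑ l, Y l ^ 2)
  | [], S, _, ι, _, Y, hY, i, hi => by
      obtain ⟨b, hb, h⟩ := Typed.family hY
      have hfree : ∀ l, ∀ i ∈ S, Free S (b l i) := fun l i _ => (hb l i).free (by simp)
      have hV : ∑ l, Y l ^ 2 = Vf S b := by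
        unfold Vf
        exact Finset.sum_congr rfl fun l _ => by rw [h l]
      choose β hβ using hb
      have hK : ∀ l m, Kf S b l m = C (∑ j ∈ S, β l j * β m j) := by
        intro l m
        unfold Kf
        rw [map_sum]
        exact Finset.sum_congr rfl fun j _ => by rw [hβ, hβ, map_mul]
      have hT : Tf S b = C (∑ l, ∑ j ∈ S, β l j * β l j) := by
        unfold Tf
        rw [map_sum]
        exact Finset.sum_congr rfl fun l _ => hK l l
      have hinf : infl i Y = ∑ l, β l i ^ 2 := by
        unfold infl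
        refine Finset.sum_congr rfl fun l _ => ?_
        rw [h l, Yf, pderiv_leg (hfree l) hi, hβ, ← map_pow, E_C]
      have hk : k3 (Tf S b) = 0 := by
        unfold k3
        rw [hT, ← map_pow, ← map_pow, E_C, E_C, E_C]
        ring
      have hcov : E (Tf S b * Hf S b) - E (Tf S b) * E (Hf S b) = 0 := by
        rw [hT, E_C, ← smul_eq_C_mul, map_smul, smul_eq_mul, sub_self]
      rw [hV, k3_Vf hfree, hk, hcov, hinf]
      have hC : (∑ l, β l i ^ 2) ^ 3 ≤ E (Cf S b) := by
        set κ : ι → ι → ℝ := fun l m => ∑ j ∈ S, β l j * β m j with hκ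
        have e1 : Cf S b = C (∑ j ∈ S, ∑ n, (∑ m, β m j * κ m n) ^ 2) := by
          rw [Cf_eq, map_sum]
          refine Finset.sum_congr rfl fun j _ => ?_
          rw [map_sum]
          refine Finset.sum_congr rfl fun n _ => ?_
          rw [map_pow, map_sum]
          congr 1
          exact Finset.sum_congr rfl fun m _ => by rw [hβ, hK, map_mul]
        rw [e1, E_C]
        refine le_trans ?_ (Finset.single_le_sum (f := fun j => ∑ n, (∑ m, β m j * κ m n) ^ 2)
          (fun j _ => Finset.sum_nonneg fun n _ => sq_nonneg _) hi)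
        -- Cauchy–Schwarz twice
        set A := ∑ l, β l i ^ 2 with hA
        have hA0 : 0 ≤ A := Finset.sum_nonneg fun l _ => sq_nonneg _
        set w : ι → ℝ := fun n => ∑ m, β m i * κ m n with hw
        have e2 : A ^ 2 ≤ ∑ n, β n i * w n := by
          have e3 : ∑ n, β n i * w n = ∑ j ∈ S, (∑ n, β n i * β n j) ^ 2 := by
            have e4 : ∀ j, (∑ n, β n i * β n j) ^ 2
                = ∑ n, ∑ m, β n i * (β m i * (β m j * β n j)) := by
              intro j
              rw [pow_two, Finset.sum_mul_sum]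
              exact Finset.sum_congr rfl fun n _ => Finset.sum_congr rfl fun m _ => by ring
            simp only [e4, hw, hκ, Finset.mul_sum]
            calc ∑ n, ∑ m, ∑ j ∈ S, β n i * (β m i * (β m j * β n j))
                = ∑ n, ∑ j ∈ S, ∑ m, β n i * (β m i * (β m j * β n j)) :=
                  Finset.sum_congr rfl fun n _ => Finset.sum_comm
              _ = _ := Finset.sum_comm
          rw [e3]
          refine le_trans (le_of_eq ?_) (Finset.single_le_sum
            (f := fun j => (∑ n, β n i * β n j) ^ 2) (fun j _ => sq_nonneg _) hi)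
          rw [hA]
          congr 1
          exact Finset.sum_congr rfl fun n _ => pow_two _
        have e5 := Finset.sum_mul_sq_le_sq_mul_sq Finset.univ (fun n => β n i) w
        rcases hA0.eq_or_lt with h0 | h0
        · rw [← h0]
          have : 0 ≤ ∑ n, w n ^ 2 := Finset.sum_nonneg fun n _ => sq_nonneg _
          simpa using this
        · have e6 : (A ^ 2) ^ 2 ≤ A * ∑ n, w n ^ 2 := by
            refine le_trans ?_ e5
            exact pow_le_pow_left₀ (by positivity) e2 2
          have e7 : A * A ^ 3 ≤ A * ∑ n, w n ^ 2 := by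
            calc A * A ^ 3 = (A ^ 2) ^ 2 := by ring
              _ ≤ _ := e6
          exact le_of_mul_le_mul_left e7 h0
      linarith
  | S :: L, S0, hd, ι, _, Y, hY, i, hi => by
      obtain ⟨b, hb, h⟩ := Typed.family (L := L ++ [S0]) hY
      rw [List.cons_append, List.pairwise_cons] at hd
      have hfree : ∀ l, ∀ i ∈ S, Free S (b l i) := fun l i _ => (hb l i).free hd.1
      have hV : ∑ l, Y l ^ 2 = Vf S b := by
        unfold Vf
        exact Finset.sum_congr rfl fun l _ => by rw [h l]
      have ih := k3_ge L S0 hd.2 (ι × S) (fun x => b x.1 x.2) (fun x => hb _ _) i hi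
      have hinf : infl i (fun x : ι × S => b x.1 x.2) = infl i Y := by
        unfold infl
        rw [Fintype.sum_prod_type]
        refine Finset.sum_congr rfl fun l _ => ?_
        rw [h l, Yf, Finset.sum_coe_sort S (fun j => E (pderiv i (b l j) ^ 2))]
        have e1 : pderiv i (∑ j ∈ S, X j * b l j) = ∑ j ∈ S, X j * pderiv i (b l j) := by
          rw [map_sum]
          refine Finset.sum_congr rfl fun j hj => ?_
          have h2 : j ≠ i := fun h => Finset.disjoint_left.mp (hd.1 S0 (by simp)) hj (h ▸ hi)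
          rw [Derivation.leibniz, pderiv_X_of_ne h2]
          simp
        have hf2 : ∀ j ∈ S, Free S (pderiv i (b l j)) := fun j hj => pderiv_free (hfree l j hj)
        rw [e1, pow_two, E_leg_mul hf2, D_leg hf2, map_sum]
        exact Finset.sum_congr rfl fun j _ => by rw [pow_two]
      rw [hinf, ← Tf_eq] at ih
      have hcov : E (Tf S b) * E (Hf S b) ≤ E (Tf S b * Hf S b) := by
        rw [Tf_eq, map_sum, Finset.sum_mul, Finset.sum_mul, map_sum]
        refine Finset.sum_le_sum fun x _ => ?_
        refine (hb x.1 x.2).cov hd.2 fun S' hS' => ?_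
        exact conv_Hf fun l j _ => (hb l j).aff hd.2 S' hS'
      rw [hV, k3_Vf hfree]
      have := E_Cf_nonneg (S := S) (b := b)
      linarith

/-- hypercontractivity for sums of squares of decoupled forms -/
theorem cube_le : ∀ (L : List (Finset ℕ)), L.Pairwise Disjoint →
    ∀ (ι : Type) [Fintype ι] (Y : ι → R), (∀ l, Typed L (Y l)) →
      E ((∑ l, Y l ^ 2) ^ 3) ≤ 15 ^ L.length * E (∑ l, Y l ^ 2) ^ 3
  | [], _, ι, _, Y, hY => by
      choose c hc using hY
      have h : ∑ l, Y l ^ 2 = C (∑ l, c l ^ 2) := by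
        rw [map_sum]
        exact Finset.sum_congr rfl fun l _ => by rw [hc l, map_pow]
      rw [h, ← map_pow, E_C, E_C]
      simp
  | S :: L, hd, ι, _, Y, hY => by
      obtain ⟨b, hb, h⟩ := Typed.family hY
      rw [List.pairwise_cons] at hd
      have hfree : ∀ l, ∀ i ∈ S, Free S (b l i) := fun l i _ => (hb l i).free hd.1
      have hV : ∑ l, Y l ^ 2 = Vf S b := by
        unfold Vf
        exact Finset.sum_congr rfl fun l _ => by rw [h l]
      have ih := cube_le L hd.2 (ι × S) (fun x => b x.1 x.2) (fun x => hb _ _)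
      rw [← Tf_eq] at ih
      rw [hV, E_Vf_cube hfree, E_Vf hfree]
      have h1 : E (Tf S b * Hf S b) ≤ E (Tf S b ^ 3) := by
        refine E_mono fun ω => ?_
        rw [map_mul, map_pow]
        have h2 := eval_Hf_le (S := S) (b := b) ω
        have h3 := eval_Tf_nonneg (S := S) (b := b) ω
        calc _ ≤ eval ω (Tf S b) * eval ω (Tf S b) ^ 2 := mul_le_mul_of_nonneg_left h2 h3
          _ = _ := by ring
      have h4 : E (Cf S b) ≤ E (Tf S b ^ 3) := by
        refine E_mono fun ω => ?_
        rw [map_pow]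
        exact eval_Cf_le ω
      calc E (Tf S b ^ 3) + 6 * E (Tf S b * Hf S b) + 8 * E (Cf S b)
          ≤ 15 * E (Tf S b ^ 3) := by linarith
        _ ≤ 15 * (15 ^ L.length * E (Tf S b) ^ 3) := by linarith
        _ = _ := by rw [List.length_cons, pow_succ]; ring

end A602
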